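import Mathlib

/-!
# The damped wave equation `u_tt - Δu + a |u_t|^α u_t = f` as an evolution equation

Definitions for MP_d105ab_an: energy space, the maximal monotone operator `A`, strong solutions
and weak (generalised) solutions as locally uniform limits of strong solutions.
-/

set_option autoImplicit false

open MeasureTheory Filter Topology Metric Set
open scoped ContDiff RealInnerProductSpace

namespace Pool.Agent.H40.Hx

/-- Euclidean space `ℝᴺ`. -/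
abbrev E (N : ℕ) : Type := EuclideanSpace ℝ (Fin N)

/-- `L²(ℝᴺ)`, real valued. -/
abbrev L2 (N : ℕ) : Type := Lp ℝ 2 (volume : Measure (E N))

/-- `L²(ℝᴺ; ℝᴺ)`, vector fields. -/
abbrev L2v (N : ℕ) : Type := Lp (E N) 2 (volume : Measure (E N))

/-- `φ ∈ C_c^∞(Ω)`. -/
def IsTest {N : ℕ} (Ω : Set (E N)) (φ : E N → ℝ) : Prop :=
  ContDiff ℝ ∞ φ ∧ HasCompactSupport φ ∧ tsupport φ ⊆ Ω

/-- The Sobolev space `H¹₀(Ω)`: the closure in `L² × L²` of the pairs `(φ, ∇φ)` with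
`φ ∈ C_c^∞(Ω)`. Its elements are pairs `(u, ∇u)`. -/
def H10 {N : ℕ} (Ω : Set (E N)) : Set (L2 N × L2v N) :=
  closure {x | ∃ φ : E N → ℝ, IsTest Ω φ ∧ (x.1 : E N → ℝ) =ᵐ[volume] φ ∧
    (x.2 : E N → E N) =ᵐ[volume] gradient φ}

/-- `L²(Ω)`: the elements of `L²(ℝᴺ)` that vanish outside `Ω`. -/
def L2on {N : ℕ} (Ω : Set (E N)) : Set (L2 N) :=
  {v | ∀ᵐ x ∂(volume : Measure (E N)), x ∉ Ω → (v : E N → ℝ) x = 0}

/-- States `((u, ∇u), u_t)` of the wave equation. -/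
abbrev St (N : ℕ) : Type := (L2 N × L2v N) × L2 N

/-- The energy space `H¹₀(Ω) × L²(Ω)`. -/
def EnergySpace {N : ℕ} (Ω : Set (E N)) : Set (St N) :=
  {U | U.1 ∈ H10 Ω ∧ U.2 ∈ L2on Ω}

/-- The energy `∫ (u_t² + |∇u|²)` of a state. -/
noncomputable def energy {N : ℕ} (U : St N) : ℝ := ‖U.2‖ ^ 2 + ‖U.1.2‖ ^ 2

/-- The maximal monotone operator `A (u, v) = (-v, -Δu + a |v|^α v)` of the damped wave equation,
with domain `{(u, v) : u, v ∈ H¹₀(Ω), v ∈ L^{α+2}, -Δu + a |v|^α v ∈ L²(Ω)}`, as a relation: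
`IsA a α Ω U V` says `U ∈ D(A)` and `V = A U`. -/
def IsA {N : ℕ} (a α : ℝ) (Ω : Set (E N)) (U V : St N) : Prop :=
  U.1 ∈ H10 Ω ∧ V.1 ∈ H10 Ω ∧ V.1.1 = -U.2 ∧ V.2 ∈ L2on Ω ∧
    MemLp (U.2 : E N → ℝ) (ENNReal.ofReal (α + 2)) volume ∧
    ∀ φ : E N → ℝ, IsTest Ω φ →
      (∫ x, ⟪(U.1.2 : E N → E N) x, gradient φ x⟫) +
        ∫ x, a * |(U.2 : E N → ℝ) x| ^ α * (U.2 : E N → ℝ) x * φ x =
      ∫ x, (V.2 : E N → ℝ) x * φ x

/-- `U` is a strong solution of `U' + A U = F` on `[0, T]`: `U` is absolutely continuous with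
values in the energy space, with derivative `W ∈ L¹(0, T)`, and `W(t) + A U(t) = F(t)` for almost
every `t ∈ (0, T)`. -/
def StrongSol {N : ℕ} (a α : ℝ) (Ω : Set (E N)) (T : ℝ) (F U : ℝ → St N) : Prop :=
  U 0 ∈ EnergySpace Ω ∧ IntegrableOn F (Ioc 0 T) ∧
    (∀ᵐ t ∂(volume.restrict (Ioc 0 T)), F t ∈ EnergySpace Ω) ∧
    ∃ W : ℝ → St N, IntegrableOn W (Ioc 0 T) ∧
      (∀ t ∈ Icc 0 T, U t = U 0 + ∫ s in (0 : ℝ)..t, W s) ∧
      ∀ᵐ t ∂(volume.restrict (Ioc 0 T)), IsA a α Ω (U t) (F t - W t)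

/-- `U` is a weak (generalised) solution of the damped wave equation
`u_tt - Δu + a |u_t|^α u_t = f` on `[0, ∞)` in the sense of the theory of maximal monotone
operators: on every interval `[0, T]` it is a uniform limit of strong solutions of
`U_n' + A U_n = F_n` with `F_n → (0, f)` in `L¹(0, T; H¹₀(Ω) × L²(Ω))`. -/
def WeakSol {N : ℕ} (a α : ℝ) (Ω : Set (E N)) (f : ℝ → L2 N) (U : ℝ → St N) : Prop :=
  ∀ T : ℝ, 0 < T → ∃ F' U' : ℕ → ℝ → St N,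
    (∀ n, StrongSol a α Ω T (F' n) (U' n)) ∧
      Tendsto (fun n => ∫ t in (0 : ℝ)..T, ‖F' n t - ((0, 0), f t)‖) atTop (𝓝 0) ∧
      TendstoUniformlyOn U' U atTop (Icc 0 T)

/-- `f ∈ L^∞(ℝ⁺; L²(Ω))` with bound `M`. -/
def BoundedForce {N : ℕ} (Ω : Set (E N)) (M : ℝ) (f : ℝ → L2 N) : Prop :=
  AEStronglyMeasurable f (volume.restrict (Ioi 0)) ∧
    (∀ᵐ t ∂(volume.restrict (Ioi (0 : ℝ))), f t ∈ L2on Ω) ∧
    ∀ᵐ t ∂(volume.restrict (Ioi (0 : ℝ))), ‖f t‖ ≤ M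

end Pool.Agent.H40.Hx
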