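import Mathlib
import Pool.Agent.H25.HX.Base
import Pool.Agent.H40.Hx.TDefs

/-!
# `C¹_c` test functions are limits of `C^∞_c` test functions
-/

set_option autoImplicit false

open MeasureTheory Filter Topology Metric Set
open scoped ContDiff RealInnerProductSpace Convolution

namespace Pool.Agent.H40.Hx

open Pool.Agent.H25.HX (Tst)

variable {N : ℕ}

theorem gradient_apply_inner {φ : E N → ℝ} {x : E N} (v : E N) :
    ⟪gradient φ x, v⟫ = fderiv ℝ φ x v := by
  rw [gradient, InnerProductSpace.toDual_symm_apply]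

theorem norm_gradient_sub_le {φ ψ : E N → ℝ} {x : E N} {ε : ℝ} (hε : 0 ≤ ε)
    (h : ∀ v : E N, |fderiv ℝ φ x v - fderiv ℝ ψ x v| ≤ ε * ‖v‖) :
    ‖gradient φ x - gradient ψ x‖ ≤ ε := by
  have h1 : gradient φ x - gradient ψ x = (InnerProductSpace.toDual ℝ (E N)).symm
      (fderiv ℝ φ x - fderiv ℝ ψ x) := by
    simp [gradient, map_sub]
  rw [h1, LinearIsometryEquiv.norm_map]
  refine ContinuousLinearMap.opNorm_le_bound _ hε fun v => ?_
  simpa [Real.norm_eq_abs] using h v

theorem moll {Ω : Set (E N)} (hΩ : IsOpen Ω) {φ : E N → ℝ} (h : Tst Ω φ) {δ : ℝ} (hδ : 0 < δ) :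
    ∃ ψ : E N → ℝ, IsTest Ω ψ ∧ (∀ x, |φ x - ψ x| ≤ δ) ∧ ∫ x, (φ x - ψ x) ^ 2 ≤ δ ∧
      ∫ x, ‖gradient φ x - gradient ψ x‖ ^ 2 ≤ δ := by
  obtain ⟨h1, h2, h3⟩ := h
  obtain ⟨r, hr, hrΩ⟩ := (h2.isCompact).exists_cthickening_subset_open hΩ h3
  set K : Set (E N) := cthickening r (tsupport φ) with hK
  have hKc : IsCompact K := h2.isCompact.cthickening
  have hKfin : volume K < ⊤ := hKc.measure_lt_top
  set V : ℝ := (volume K).toReal with hV
  have hV0 : 0 ≤ V := ENNReal.toReal_nonneg
  set ε : ℝ := min δ (Real.sqrt (δ / (V + 1))) with hε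
  have hε0 : 0 < ε := lt_min hδ (Real.sqrt_pos.2 (by positivity))
  have hε2 : ε ^ 2 * V ≤ δ := by
    have h7 : ε ^ 2 ≤ δ / (V + 1) := by
      rw [← Real.sq_sqrt (show 0 ≤ δ / (V + 1) by positivity)]
      exact pow_le_pow_left₀ hε0.le (min_le_right _ _) 2
    refine (mul_le_mul_of_nonneg_right h7 hV0).trans ?_
    rw [div_mul_eq_mul_div, div_le_iff₀ (by positivity)]
    nlinarith
  have huc1 := h2.uniformContinuous_of_continuous h1.continuous
  have hfc : Continuous (fderiv ℝ φ) := h1.continuous_fderiv one_ne_zero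
  have hfs : HasCompactSupport (fderiv ℝ φ) := h2.fderiv ℝ
  have huc2 := hfs.uniformContinuous_of_continuous hfc
  obtain ⟨d1, hd1, hd1'⟩ := Metric.uniformContinuous_iff.1 huc1 ε hε0
  obtain ⟨d2, hd2, hd2'⟩ := Metric.uniformContinuous_iff.1 huc2 ε hε0
  set ρ : ℝ := min r (min d1 d2) with hρ
  have hρ0 : 0 < ρ := by positivity
  let B : ContDiffBump (0 : E N) := ⟨ρ / 2, ρ, by positivity, by linarith⟩
  have hBout : B.rOut = ρ := rfl
  let ψ : E N → ℝ := B.normed volume ⋆[ContinuousLinearMap.lsmul ℝ ℝ, volume] φ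
  have hψsm : ContDiff ℝ ∞ ψ := by
    refine B.hasCompactSupport_normed.contDiff_convolution_left _ B.contDiff_normed ?_
    exact h1.continuous.locallyIntegrable
  have hψsupp : Function.support ψ ⊆ K := by
    intro x hx
    have h4 := support_convolution_subset (μ := volume) (ContinuousLinearMap.lsmul ℝ ℝ)
      (f := B.normed volume) (g := φ) hx
    rw [B.support_normed_eq] at h4
    obtain ⟨a, ha, b, hb, hab⟩ := h4
    rw [hBout, mem_ball_zero_iff] at ha
    refine mem_cthickening_of_dist_le x b r _ (subset_tsupport _ hb) ?_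
    rw [← hab, dist_eq_norm]
    have : ‖a + b - b‖ = ‖a‖ := by congr 1; abel
    simp only at *
    rw [this]
    exact ha.le.trans (min_le_left _ _)
  have hψts : tsupport ψ ⊆ K := closure_minimal hψsupp hKc.isClosed
  have hψcs : HasCompactSupport ψ := hKc.of_isClosed_subset (isClosed_tsupport _) hψts
  have hd0 : ∀ x, |φ x - ψ x| ≤ ε := by
    intro x
    have := B.dist_normed_convolution_le (x₀ := x) (g := φ) (ε := ε)
      h1.continuous.aestronglyMeasurable (μ := volume) (fun y hy => by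
        rw [mem_ball, hBout] at hy
        exact (hd1' (hy.trans_le ((min_le_right _ _).trans (min_le_left _ _)))).le)
    rw [Real.dist_eq, abs_sub_comm] at this
    exact this
  have hd3 : ∀ x, ‖gradient φ x - gradient ψ x‖ ≤ ε := by
    intro x
    refine norm_gradient_sub_le hε0.le fun v => ?_
    have hfd : HasFDerivAt ψ ((B.normed volume ⋆[(ContinuousLinearMap.lsmul ℝ ℝ).precompR (E N),
        volume] fderiv ℝ φ) x) x :=
      h2.hasFDerivAt_convolution_right _ B.continuous_normed.locallyIntegrable h1 x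
    rw [hfd.fderiv, convolution_precompR_apply _ B.continuous_normed.locallyIntegrable hfs hfc,
      abs_sub_comm, ← Real.dist_eq]
    refine B.dist_normed_convolution_le (x₀ := x) (g := fun a => fderiv ℝ φ a v)
      (ε := ε * ‖v‖) (hfc.clm_apply continuous_const).aestronglyMeasurable (μ := volume)
      (fun y hy => ?_)
    rw [mem_ball, hBout] at hy
    have h5 := (hd2' (hy.trans_le ((min_le_right _ _).trans (min_le_right _ _)))).le
    rw [dist_eq_norm] at h5
    rw [Real.dist_eq, ← Real.norm_eq_abs, ← sub_apply]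
    exact (ContinuousLinearMap.le_opNorm _ _).trans (by gcongr)
  have hφK : ∀ x, x ∉ K → φ x = 0 := fun x hx => by
    by_contra h0
    exact hx (self_subset_cthickening _ (subset_tsupport _ h0))
  have hψK : ∀ x, x ∉ K → ψ x = 0 := fun x hx => by
    by_contra h0
    exact hx (hψsupp h0)
  have hgK : ∀ (χ : E N → ℝ), tsupport χ ⊆ K → ∀ x, x ∉ K → gradient χ x = 0 := by
    intro χ hχ x hx
    have : fderiv ℝ χ x = 0 := by
      by_contra h0
      exact hx (hχ (support_fderiv_subset ℝ h0))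
    simp [gradient, this]
  refine ⟨ψ, ⟨hψsm, hψcs, hψts.trans hrΩ⟩, fun x => (hd0 x).trans (min_le_left _ _), ?_, ?_⟩
  · have : ∫ x, (φ x - ψ x) ^ 2 = ∫ x in K, (φ x - ψ x) ^ 2 := by
      rw [setIntegral_eq_integral_of_forall_compl_eq_zero]
      intro x hx
      simp [hφK x hx, hψK x hx]
    rw [this]
    refine le_trans ?_ hε2
    have h6 : ‖∫ x in K, (φ x - ψ x) ^ 2‖ ≤ ε ^ 2 * volume.real K := by
      refine norm_setIntegral_le_of_norm_le_const hKfin fun x _ => ?_
      rw [Real.norm_eq_abs, abs_of_nonneg (sq_nonneg _), ← sq_abs]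
      exact pow_le_pow_left₀ (abs_nonneg _) (hd0 x) 2
    exact (le_abs_self _).trans h6
  · have : ∫ x, ‖gradient φ x - gradient ψ x‖ ^ 2
        = ∫ x in K, ‖gradient φ x - gradient ψ x‖ ^ 2 := by
      rw [setIntegral_eq_integral_of_forall_compl_eq_zero]
      intro x hx
      rw [hgK φ (self_subset_cthickening _) x hx, hgK ψ hψts x hx]
      simp
    rw [this]
    refine le_trans ?_ hε2
    have h6 : ‖∫ x in K, ‖gradient φ x - gradient ψ x‖ ^ 2‖ ≤ ε ^ 2 * volume.real K := by
      refine norm_setIntegral_le_of_norm_le_const hKfin fun x _ => ?_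
      rw [Real.norm_eq_abs, abs_of_nonneg (sq_nonneg _)]
      exact pow_le_pow_left₀ (norm_nonneg _) (hd3 x) 2
    exact (le_abs_self _).trans h6

end Pool.Agent.H40.Hx
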