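import Mathlib
import Pool.Agent.H25.HX.Sob
import Pool.Agent.H40.Hx.TMoll

/-!
# Extension of the class of test functions
-/

set_option autoImplicit false

open MeasureTheory Filter Topology Metric Set
open scoped ContDiff RealInnerProductSpace

namespace Pool.Agent.H40.Hx

open Pool.Agent.H25
open Pool.Agent.H25.HX (Tst lip_of_deriv ae_subseq sq_norm_integrable grad_comp)

variable {N : ℕ} {Ω : Set (E N)}

/-- chain rule, with the approximating sequence -/
theorem comp_seq {u : E N → ℝ} {U : E N → E N} (h : HX.H10 Ω u U) {F : ℝ → ℝ}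
    (hF : ContDiff ℝ 1 F) (h0 : F 0 = 0) {C : ℝ} (hC : ∀ s, |deriv F s| ≤ C) :
    ∃ φ : ℕ → E N → ℝ, (∀ n, Tst Ω (φ n)) ∧ (∀ n, Tst Ω (fun x => F (φ n x))) ∧
      (∀ᵐ x ∂(volume : Measure (E N)), Tendsto (fun n => φ n x) atTop (𝓝 (u x))) ∧
      Tendsto (fun n => ∫ x, ‖F (u x) - F (φ n x)‖ ^ 2) atTop (𝓝 0) ∧
      Tendsto (fun n => ∫ x, ‖deriv F (u x) • U x - gradient (fun x => F (φ n x)) x‖ ^ 2) atTop
        (𝓝 0) := by
  have hC0 : 0 ≤ C := (abs_nonneg _).trans (hC 0)
  have hF' : Continuous (deriv F) := hF.continuous_deriv (by norm_num)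
  have m1 : ∀ {v : E N → ℝ}, MemLp v 2 volume → MemLp (fun x => F (v x)) 2 volume := by
    intro v hv
    refine MemLp.of_le_mul (c := C) hv
      (hF.continuous.comp_aestronglyMeasurable hv.1) (ae_of_all _ fun x => ?_)
    have := lip_of_deriv hF hC (v x) 0
    simpa [h0, Real.norm_eq_abs] using this
  have m2 : ∀ {v : E N → ℝ} {V : E N → E N}, MemLp v 2 volume → MemLp V 2 volume →
      MemLp (fun x => deriv F (v x) • V x) 2 volume := by
    intro v V hv hV
    refine MemLp.of_le_mul (c := C) hV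
      ((hF'.comp_aestronglyMeasurable hv.1).smul hV.1) (ae_of_all _ fun x => ?_)
    rw [norm_smul]
    exact mul_le_mul_of_nonneg_right (hC _) (norm_nonneg _)
  obtain ⟨φ0, t0, c0, d0⟩ := HX.H10.seq h
  obtain ⟨ns, hns, hae⟩ := ae_subseq h.1 (fun n => (HX.Tst.mem (t0 n))) c0
  -- pass to the subsequence
  set φ : ℕ → E N → ℝ := fun n => φ0 (ns n) with hφ
  have t : ∀ n, Tst Ω (φ n) := fun n => t0 (ns n)
  have c : Tendsto (fun n => ∫ x, ‖u x - φ n x‖ ^ 2) atTop (𝓝 0) := c0.comp hns.tendsto_atTop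
  have d : Tendsto (fun n => ∫ x, ‖U x - gradient (φ n) x‖ ^ 2) atTop (𝓝 0) :=
    d0.comp hns.tendsto_atTop
  have hT : ∀ n, Tst Ω (fun x => F (φ n x)) := by
    intro n
    refine ⟨hF.comp (t n).1, (t n).2.1.comp_left h0, ?_⟩
    exact (closure_mono (Function.support_comp_subset h0 (φ n))).trans (t n).2.2
  refine ⟨φ, t, hT, hae, ?_, ?_⟩
  · have h2 : ∀ n, ∫ x, ‖F (u x) - F (φ n x)‖ ^ 2 ≤ C ^ 2 * ∫ x, ‖u x - φ n x‖ ^ 2 := by
      intro n
      rw [← integral_const_mul]
      apply integral_mono (sq_norm_integrable ((m1 h.1).sub (m1 (HX.Tst.mem (t n)))))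
        ((sq_norm_integrable (h.1.sub (HX.Tst.mem (t n)))).const_mul _)
      intro x
      simp only [Pi.sub_apply]
      rw [← mul_pow]
      exact pow_le_pow_left₀ (norm_nonneg _) (lip_of_deriv hF hC _ _) 2
    refine squeeze_zero (fun n => integral_nonneg fun x => by positivity) h2 ?_
    simpa using c.const_mul (C ^ 2)
  · have h3 : Tendsto (fun n => ∫ x, |deriv F (u x) - deriv F (φ n x)| ^ 2 * ‖U x‖ ^ 2) atTop
        (𝓝 0) := by
      have h4 : Tendsto (fun n => ∫ x, |deriv F (u x) - deriv F (φ n x)| ^ 2 * ‖U x‖ ^ 2) atTop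
        (𝓝 (∫ x : E N, (0 : ℝ))) := by
        apply tendsto_integral_of_dominated_convergence (fun x => (2 * C) ^ 2 * ‖U x‖ ^ 2)
        · intro n
          have a1 := (hF'.comp_aestronglyMeasurable h.1.1).sub
            (hF'.comp_aestronglyMeasurable (HX.Tst.mem (t n)).1)
          exact (a1.norm.pow 2).mul (h.2.1.1.norm.pow 2)
        · exact (sq_norm_integrable h.2.1).const_mul _
        · intro n
          refine ae_of_all _ fun x => ?_
          rw [Real.norm_of_nonneg (by positivity)]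
          refine mul_le_mul_of_nonneg_right ?_ (by positivity)
          refine pow_le_pow_left₀ (abs_nonneg _) ?_ 2
          have := abs_sub (deriv F (u x)) (deriv F (φ n x))
          linarith [hC (u x), hC (φ n x), this]
        · filter_upwards [hae] with x hx
          have h5 : Tendsto (fun n => |deriv F (u x) - deriv F (φ n x)| ^ 2 * ‖U x‖ ^ 2) atTop
              (𝓝 (|deriv F (u x) - deriv F (u x)| ^ 2 * ‖U x‖ ^ 2)) :=
            (((tendsto_const_nhds.sub ((hF'.tendsto _).comp hx)).abs).pow 2).mul_const _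
          simpa using h5
      simpa using h4
    have h4 : ∀ n, ∫ x, ‖deriv F (u x) • U x - gradient (fun x => F (φ n x)) x‖ ^ 2 ≤
        (2 * ∫ x, |deriv F (u x) - deriv F (φ n x)| ^ 2 * ‖U x‖ ^ 2) +
          2 * C ^ 2 * ∫ x, ‖U x - gradient (φ n) x‖ ^ 2 := by
      intro n
      have i1 : Integrable (fun x => |deriv F (u x) - deriv F (φ n x)| ^ 2 * ‖U x‖ ^ 2)
          volume := by
        have a1 := (m2 h.1 h.2.1).sub (m2 (v := φ n) (HX.Tst.mem (t n)) h.2.1)
        refine (sq_norm_integrable a1).congr (ae_of_all _ fun x => ?_)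
        simp only [Pi.sub_apply]
        rw [← sub_smul, norm_smul, mul_pow, Real.norm_eq_abs]
      have i2 := sq_norm_integrable (h.2.1.sub (HX.Tst.memG (t n)))
      simp only [Pi.sub_apply] at i2
      rw [← integral_const_mul, ← integral_const_mul, ← integral_add (i1.const_mul _)
        (i2.const_mul _)]
      apply integral_mono (sq_norm_integrable ((m2 h.1 h.2.1).sub (HX.Tst.memG (hT n))))
        ((i1.const_mul _).add (i2.const_mul _))
      intro x
      simp only [Pi.sub_apply, Pi.add_apply]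
      rw [grad_comp (t n).1 hF]
      have e1 : deriv F (u x) • U x - deriv F (φ n x) • gradient (φ n) x =
          (deriv F (u x) - deriv F (φ n x)) • U x +
            deriv F (φ n x) • (U x - gradient (φ n) x) := by
        rw [sub_smul, smul_sub]
        abel
      rw [e1]
      have e2 := norm_add_le ((deriv F (u x) - deriv F (φ n x)) • U x)
        (deriv F (φ n x) • (U x - gradient (φ n) x))
      rw [norm_smul, norm_smul] at e2
      set A := ‖deriv F (u x) - deriv F (φ n x)‖ * ‖U x‖ with hA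
      set B := ‖deriv F (φ n x)‖ * ‖U x - gradient (φ n) x‖ with hB
      have e3 : B ≤ C * ‖U x - gradient (φ n) x‖ :=
        mul_le_mul_of_nonneg_right (hC _) (norm_nonneg _)
      have e4 : 0 ≤ A := by positivity
      have e5 : 0 ≤ B := by positivity
      have e6 := norm_nonneg ((deriv F (u x) - deriv F (φ n x)) • U x +
            deriv F (φ n x) • (U x - gradient (φ n) x))
      have e7 : |deriv F (u x) - deriv F (φ n x)| ^ 2 * ‖U x‖ ^ 2 = A ^ 2 := by
        rw [hA, mul_pow, Real.norm_eq_abs]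
      rw [e7]
      have e8 : B ^ 2 ≤ C ^ 2 * ‖U x - gradient (φ n) x‖ ^ 2 := by
        rw [← mul_pow]
        exact pow_le_pow_left₀ e5 e3 2
      nlinarith [sq_nonneg (A - B)]
    refine squeeze_zero (fun n => integral_nonneg fun x => by positivity) h4 ?_
    have h5 := (h3.const_mul 2).add (d.const_mul (2 * C ^ 2))
    simpa using h5


/-- the truncations `F_n(s) = n arctan(s/n)` -/
noncomputable def Fn (n : ℕ) (s : ℝ) : ℝ := (n + 1) * Real.arctan (s / (n + 1))

theorem Fn_contDiff (n : ℕ) : ContDiff ℝ 1 (Fn n) := by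
  unfold Fn
  exact contDiff_const.mul (Real.contDiff_arctan.comp (contDiff_id.div_const _))

theorem Fn_zero (n : ℕ) : Fn n 0 = 0 := by simp [Fn]

theorem Fn_deriv (n : ℕ) (s : ℝ) : deriv (Fn n) s = 1 / (1 + (s / (n + 1)) ^ 2) := by
  have hn : (0 : ℝ) < n + 1 := by positivity
  have h1 : HasDerivAt (fun s : ℝ => s / (n + 1)) (1 / (n + 1)) s := (hasDerivAt_id s).div_const _
  have h2 := (h1.arctan).const_mul ((n : ℝ) + 1)
  have h3 : HasDerivAt (Fn n) _ s := h2
  rw [h3.deriv]
  field_simp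

theorem Fn_deriv_abs (n : ℕ) (s : ℝ) : |deriv (Fn n) s| ≤ 1 := by
  rw [Fn_deriv, abs_of_pos (by positivity), div_le_one (by positivity)]
  nlinarith [sq_nonneg (s / ((n : ℝ) + 1))]

theorem Fn_deriv_tendsto (s : ℝ) : Tendsto (fun n : ℕ => deriv (Fn n) s) atTop (𝓝 1) := by
  simp only [Fn_deriv]
  have h1 : Tendsto (fun n : ℕ => s / ((n : ℝ) + 1)) atTop (𝓝 0) := by
    have := tendsto_one_div_add_atTop_nhds_zero_nat (𝕜 := ℝ)
    simpa [div_eq_mul_inv] using this.const_mul s
  have h2 := (tendsto_const_nhds (x := (1 : ℝ)) (f := (atTop : Filter ℕ))).div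
    ((h1.pow 2).const_add 1) (by norm_num)
  have h3 : (1 : ℝ) / (1 + 0 ^ 2) = 1 := by norm_num
  rw [h3] at h2
  exact h2

theorem Fn_abs_le (n : ℕ) (s : ℝ) : |Fn n s| ≤ |s| := by
  have := lip_of_deriv (Fn_contDiff n) (Fn_deriv_abs n) s 0
  simpa [Fn_zero] using this

theorem Fn_bdd (n : ℕ) (s : ℝ) : |Fn n s| ≤ (n + 1) * (Real.pi / 2) := by
  rw [Fn, abs_mul, abs_of_pos (by positivity)]
  refine mul_le_mul_of_nonneg_left ?_ (by positivity)
  rw [abs_le]
  exact ⟨(Real.neg_pi_div_two_lt_arctan _).le, (Real.arctan_lt_pi_div_two _).le⟩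

theorem Fn_tendsto (s : ℝ) : Tendsto (fun n : ℕ => Fn n s) atTop (𝓝 s) := by
  by_cases hs : s = 0
  · subst hs; simp [Fn_zero]
  have h1 : Tendsto (fun n : ℕ => s / ((n : ℝ) + 1)) atTop (𝓝[≠] 0) := by
    rw [tendsto_nhdsWithin_iff]
    refine ⟨?_, Filter.Eventually.of_forall fun n => ?_⟩
    · have := tendsto_one_div_add_atTop_nhds_zero_nat (𝕜 := ℝ)
      simpa [div_eq_mul_inv] using this.const_mul s
    · have : (0 : ℝ) < n + 1 := by positivity
      simp only [mem_compl_iff, mem_singleton_iff]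
      positivity
  have h2 : HasDerivAt Real.arctan 1 0 := by simpa using Real.hasDerivAt_arctan 0
  have h3 := (hasDerivAt_iff_tendsto_slope.1 h2).comp h1
  have h4 := h3.const_mul s
  rw [mul_one] at h4
  refine h4.congr fun n => ?_
  have : (0 : ℝ) < n + 1 := by positivity
  simp only [Function.comp, slope_def_field, Real.arctan_zero, sub_zero, Fn]
  field_simp

/-- extension of the class of test functions of a weak equation -/
theorem test_ext (hΩ : IsOpen Ω) {G : E N → E N} {y γ : E N → ℝ} (hG : MemLp G 2 volume)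
    (hy : MemLp y 2 volume) (hγ : Integrable γ volume)
    (H : ∀ φ : E N → ℝ, IsTest Ω φ →
      (∫ x, ⟪G x, gradient φ x⟫) + ∫ x, γ x * φ x = ∫ x, y x * φ x)
    {z : E N → ℝ} {Z : E N → E N} (hz : HX.H10 Ω z Z)
    (hγz : Integrable (fun x => γ x * z x) volume) :
    (∫ x, ⟪G x, Z x⟫) + ∫ x, γ x * z x = ∫ x, y x * z x := by
  -- `C¹` test functions
  have HA : ∀ φ : E N → ℝ, Tst Ω φ →
      (∫ x, ⟪G x, gradient φ x⟫) + ∫ x, γ x * φ x = ∫ x, y x * φ x := by
    intro φ hφ
    choose ψ h1 h2 h3 h4 using fun n : ℕ => moll hΩ hφ (δ := 1 / ((n : ℝ) + 1)) (by positivity)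
    have hT : ∀ n, Tst Ω (ψ n) := fun n => ⟨(h1 n).1.of_le (by exact_mod_cast le_top), (h1 n).2.1,
      (h1 n).2.2⟩
    have l1 : Tendsto (fun n => ∫ x, ‖gradient φ x - gradient (ψ n) x‖ ^ 2) atTop (𝓝 0) :=
      squeeze_zero (fun n => integral_nonneg fun x => by positivity) h4
        tendsto_one_div_add_atTop_nhds_zero_nat
    have l2 : Tendsto (fun n => ∫ x, ‖φ x - ψ n x‖ ^ 2) atTop (𝓝 0) := by
      simp only [Real.norm_eq_abs, sq_abs]
      exact squeeze_zero (fun n => integral_nonneg fun x => by positivity) h3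
        tendsto_one_div_add_atTop_nhds_zero_nat
    have t1 := HX.tendsto_int_inner hG (HX.Tst.memG hφ) (b := fun _ => G) (fun _ => hG)
      (fun n => HX.Tst.memG (hT n)) (by simp) l1
    have t2 := HX.tendsto_int_inner hy (HX.Tst.mem hφ) (b := fun _ => y) (fun _ => hy)
      (fun n => HX.Tst.mem (hT n)) (by simp) l2
    have t3 : Tendsto (fun n => ∫ x, γ x * ψ n x) atTop (𝓝 (∫ x, γ x * φ x)) := by
      obtain ⟨Cφ, hCφ⟩ := hφ.2.1.exists_bound_of_continuous hφ.1.continuous
      refine tendsto_integral_of_dominated_convergence (fun x => |γ x| * (Cφ + 1)) ?_ ?_ ?_ ?_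
      · intro n
        exact hγ.1.mul (h1 n).1.continuous.aestronglyMeasurable
      · exact hγ.abs.mul_const _
      · intro n
        refine ae_of_all _ fun x => ?_
        rw [norm_mul, Real.norm_eq_abs, Real.norm_eq_abs]
        refine mul_le_mul_of_nonneg_left ?_ (abs_nonneg _)
        have e1 := h2 n x
        have e2 : 1 / ((n : ℝ) + 1) ≤ 1 := by
          rw [div_le_one (by positivity)]
          have : (0 : ℝ) ≤ n := by positivity
          linarith
        have e3 := hCφ x
        rw [Real.norm_eq_abs] at e3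
        calc |ψ n x| = |φ x - (φ x - ψ n x)| := by congr 1; ring
          _ ≤ |φ x| + |φ x - ψ n x| := abs_sub _ _
          _ ≤ Cφ + 1 := by linarith
      · refine ae_of_all _ fun x => ?_
        refine Tendsto.const_mul _ ?_
        rw [tendsto_iff_norm_sub_tendsto_zero]
        refine squeeze_zero (fun n => norm_nonneg _) (fun n => ?_)
          tendsto_one_div_add_atTop_nhds_zero_nat
        rw [norm_sub_rev]
        exact h2 n x
    have t4 := t1.add t3
    refine tendsto_nhds_unique t4 ?_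
    have t5 : ∀ n, (∫ x, ⟪G x, gradient (ψ n) x⟫) + ∫ x, γ x * ψ n x = ∫ x, ⟪y x, ψ n x⟫ := by
      intro n
      rw [H (ψ n) (h1 n)]
      refine integral_congr_ae (ae_of_all _ fun x => ?_)
      simp [mul_comm]
    have t6 : ∫ x, ⟪y x, φ x⟫ = ∫ x, y x * φ x := by
      refine integral_congr_ae (ae_of_all _ fun x => ?_)
      simp [mul_comm]
    rw [← t6]
    exact t2.congr fun n => (t5 n).symm
  -- truncations
  have HB : ∀ n : ℕ, (∫ x, ⟪G x, deriv (Fn n) (z x) • Z x⟫) + ∫ x, γ x * Fn n (z x) =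
      ∫ x, y x * Fn n (z x) := by
    intro k
    obtain ⟨φ, h1, h2, h3, h4, h5⟩ := comp_seq hz (Fn_contDiff k) (Fn_zero k) (Fn_deriv_abs k)
    have hc := HX.H10.comp hz (Fn_contDiff k) (Fn_zero k) (Fn_deriv_abs k)
    have t1 := HX.tendsto_int_inner hG hc.2.1 (b := fun _ => G) (fun _ => hG)
      (fun n => HX.Tst.memG (h2 n)) (by simp) h5
    have t2 := HX.tendsto_int_inner hy hc.1 (b := fun _ => y) (fun _ => hy)
      (fun n => HX.Tst.mem (h2 n)) (by simp) h4
    have t3 : Tendsto (fun n => ∫ x, γ x * Fn k (φ n x)) atTop (𝓝 (∫ x, γ x * Fn k (z x))) := by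
      refine tendsto_integral_of_dominated_convergence
        (fun x => |γ x| * ((k + 1) * (Real.pi / 2))) ?_ ?_ ?_ ?_
      · intro n
        exact hγ.1.mul (h2 n).1.continuous.aestronglyMeasurable
      · exact hγ.abs.mul_const _
      · intro n
        refine ae_of_all _ fun x => ?_
        rw [norm_mul, Real.norm_eq_abs, Real.norm_eq_abs]
        exact mul_le_mul_of_nonneg_left (Fn_bdd k _) (abs_nonneg _)
      · filter_upwards [h3] with x hx
        exact (((Fn_contDiff k).continuous.tendsto _).comp hx).const_mul _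
    have t4 := t1.add t3
    refine tendsto_nhds_unique t4 ?_
    have t5 : ∀ n, (∫ x, ⟪G x, gradient (fun x => Fn k (φ n x)) x⟫) + ∫ x, γ x * Fn k (φ n x)
        = ∫ x, ⟪y x, Fn k (φ n x)⟫ := by
      intro n
      rw [HA _ (h2 n)]
      refine integral_congr_ae (ae_of_all _ fun x => ?_)
      simp [mul_comm]
    have t6 : ∫ x, ⟪y x, Fn k (z x)⟫ = ∫ x, y x * Fn k (z x) := by
      refine integral_congr_ae (ae_of_all _ fun x => ?_)
      simp [mul_comm]
    rw [← t6]
    exact t2.congr fun n => (t5 n).symm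
  -- the limit
  have i1 : Integrable (fun x => ‖G x‖ * ‖Z x‖) volume := hG.norm.integrable_mul hz.2.1.norm
  have i2 : Integrable (fun x => |y x| * |z x|) volume := hy.norm.integrable_mul hz.1.norm
  have l1 : Tendsto (fun n => ∫ x, ⟪G x, deriv (Fn n) (z x) • Z x⟫) atTop
      (𝓝 (∫ x, ⟪G x, Z x⟫)) := by
    refine tendsto_integral_of_dominated_convergence (fun x => ‖G x‖ * ‖Z x‖) ?_ i1 ?_ ?_
    · intro n
      have m1 : AEStronglyMeasurable (fun x => deriv (Fn n) (z x)) volume :=
        ((Fn_contDiff n).continuous_deriv (by norm_num)).comp_aestronglyMeasurable hz.1.1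
      exact hG.1.inner (m1.smul hz.2.1.1)
    · intro n
      refine ae_of_all _ fun x => ?_
      refine (norm_inner_le_norm _ _).trans ?_
      rw [norm_smul, Real.norm_eq_abs]
      have := Fn_deriv_abs n (z x)
      refine mul_le_mul_of_nonneg_left ?_ (norm_nonneg _)
      calc |deriv (Fn n) (z x)| * ‖Z x‖ ≤ 1 * ‖Z x‖ := by gcongr
        _ = ‖Z x‖ := one_mul _
    · refine ae_of_all _ fun x => ?_
      have := ((Fn_deriv_tendsto (z x)).smul_const (Z x))
      rw [one_smul] at this
      exact (tendsto_const_nhds (x := G x)).inner this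
  have l2 : Tendsto (fun n => ∫ x, γ x * Fn n (z x)) atTop (𝓝 (∫ x, γ x * z x)) := by
    refine tendsto_integral_of_dominated_convergence (fun x => |γ x * z x|) ?_ hγz.abs ?_ ?_
    · intro n
      exact hγ.1.mul ((Fn_contDiff n).continuous.comp_aestronglyMeasurable hz.1.1)
    · intro n
      refine ae_of_all _ fun x => ?_
      rw [norm_mul, Real.norm_eq_abs, Real.norm_eq_abs, abs_mul]
      exact mul_le_mul_of_nonneg_left (Fn_abs_le n _) (abs_nonneg _)
    · exact ae_of_all _ fun x => (Fn_tendsto (z x)).const_mul _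
  have l3 : Tendsto (fun n => ∫ x, y x * Fn n (z x)) atTop (𝓝 (∫ x, y x * z x)) := by
    refine tendsto_integral_of_dominated_convergence (fun x => |y x| * |z x|) ?_ i2 ?_ ?_
    · intro n
      exact hy.1.mul ((Fn_contDiff n).continuous.comp_aestronglyMeasurable hz.1.1)
    · intro n
      refine ae_of_all _ fun x => ?_
      rw [norm_mul, Real.norm_eq_abs, Real.norm_eq_abs]
      exact mul_le_mul_of_nonneg_left (Fn_abs_le n _) (abs_nonneg _)
    · exact ae_of_all _ fun x => (Fn_tendsto (z x)).const_mul _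
  exact tendsto_nhds_unique (l1.add l2) (l3.congr fun n => (HB n).symm)

end Pool.Agent.H40.Hx
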