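import Mathlib
import Pool.Agent.H25.HX.Sob
import Pool.Agent.H25.HX.RealG
import Pool.Agent.H25.HX.ExistC
import Pool.Agent.H40.Hx.TExt

/-!
# Monotonicity of the operator and contraction
-/

set_option autoImplicit false

open MeasureTheory Filter Topology Metric Set
open scoped ContDiff RealInnerProductSpace

namespace Pool.Agent.H40.Hx

open Pool.Agent.H25
open Pool.Agent.H25.HX (Tst g)

variable {N : ℕ} {Ω : Set (E N)}

/-- the operator with the large class of test functions -/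
structure IsB (a α : ℝ) (Ω : Set (E N)) (U V : St N) : Prop where
  mU : HX.H10 Ω (U.1.1 : E N → ℝ) (U.1.2 : E N → E N)
  mV : HX.H10 Ω (V.1.1 : E N → ℝ) (V.1.2 : E N → E N)
  eV : V.1.1 = -U.2
  ip : Integrable (fun x => |(U.2 : E N → ℝ) x| ^ (α + 2)) volume
  eq : ∀ (z : E N → ℝ) (Z : E N → E N), HX.H10 Ω z Z →
    Integrable (fun x => |z x| ^ (α + 2)) volume →
    (∫ x, ⟪(U.1.2 : E N → E N) x, Z x⟫) +
        ∫ x, a * g (α + 2) ((U.2 : E N → ℝ) x) * z x =
      ∫ x, (V.2 : E N → ℝ) x * z x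

theorem H10.toHX {x : L2 N × L2v N} (h : x ∈ H10 Ω) :
    HX.H10 Ω (x.1 : E N → ℝ) (x.2 : E N → E N) := by
  refine ⟨Lp.memLp _, Lp.memLp _, fun δ hδ => ?_⟩
  rw [H10, Metric.mem_closure_iff] at h
  obtain ⟨y, ⟨φ, hφ, h1, h2⟩, hd⟩ := h (Real.sqrt δ) (Real.sqrt_pos.2 hδ)
  refine ⟨φ, ⟨hφ.1.of_le (by exact_mod_cast le_top), hφ.2.1, hφ.2.2⟩, ?_, ?_⟩
  · have e1 : ∫ t, ((x.1 : E N → ℝ) t - φ t) ^ 2 = ‖x.1 - y.1‖ ^ 2 := by
      rw [← real_inner_self_eq_norm_sq, L2.inner_def]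
      refine integral_congr_ae ?_
      filter_upwards [Lp.coeFn_sub x.1 y.1, h1] with t ht ht1
      rw [ht, Pi.sub_apply, ht1]
      simp [sq]
    rw [e1]
    have e2 : ‖x.1 - y.1‖ ≤ Real.sqrt δ := by
      rw [← dist_eq_norm]
      exact (le_max_left _ _).trans (by rw [← Prod.dist_eq]; exact hd.le)
    calc ‖x.1 - y.1‖ ^ 2 ≤ Real.sqrt δ ^ 2 := pow_le_pow_left₀ (norm_nonneg _) e2 2
      _ = δ := Real.sq_sqrt hδ.le
  · have e1 : ∫ t, ‖(x.2 : E N → E N) t - gradient φ t‖ ^ 2 = ‖x.2 - y.2‖ ^ 2 := by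
      rw [← real_inner_self_eq_norm_sq, L2.inner_def]
      refine integral_congr_ae ?_
      filter_upwards [Lp.coeFn_sub x.2 y.2, h2] with t ht ht1
      rw [ht, Pi.sub_apply, ht1, real_inner_self_eq_norm_sq]
    rw [e1]
    have e2 : ‖x.2 - y.2‖ ≤ Real.sqrt δ := by
      rw [← dist_eq_norm]
      exact (le_max_right _ _).trans (by rw [← Prod.dist_eq]; exact hd.le)
    calc ‖x.2 - y.2‖ ^ 2 ≤ Real.sqrt δ ^ 2 := pow_le_pow_left₀ (norm_nonneg _) e2 2
      _ = δ := Real.sq_sqrt hδ.le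

theorem inner_int {u v : E N → E N} (hu : MemLp u 2 volume) (hv : MemLp v 2 volume) :
    Integrable (fun x => ⟪u x, v x⟫) volume := by
  refine Integrable.mono' (hu.norm.integrable_mul hv.norm) (hu.1.inner hv.1)
    (ae_of_all _ fun x => ?_)
  exact norm_inner_le_norm _ _

theorem young_int {p : ℝ} (hp : 2 < p) {v z : E N → ℝ} (hv : AEStronglyMeasurable v volume)
    (hz : AEStronglyMeasurable z volume) (iv : Integrable (fun x => |v x| ^ p) volume)
    (iz : Integrable (fun x => |z x| ^ p) volume) :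
    Integrable (fun x => g p (v x) * z x) volume := by
  refine Integrable.mono' (iv.add iz)
    (((HX.g_continuous hp).comp_aestronglyMeasurable hv).mul hz) (ae_of_all _ fun x => ?_)
  have h1 := HX.young_g hp (|v x|) (|z x|)
  have h2 : ‖g p (v x) * z x‖ = g p (|v x|) * |z x| := by
    rw [norm_mul, Real.norm_eq_abs, Real.norm_eq_abs, HX.abs_g hp,
      HX.g_of_nonneg hp (abs_nonneg _)]
  rw [h2]
  refine h1.trans ?_
  simp only [abs_abs, Pi.add_apply]
  have hc : 1 < HX.cq p := (HX.holder_conj hp).lt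
  have h3 : |v x| ^ p / HX.cq p ≤ |v x| ^ p := div_le_self (by positivity) hc.le
  have h4 : |z x| ^ p / p ≤ |z x| ^ p := div_le_self (by positivity) (by linarith)
  linarith

theorem IsA.toB {a α : ℝ} (hα : 0 < α) (hΩ : IsOpen Ω) (hb : Bornology.IsBounded Ω) {U V : St N}
    (h : IsA a α Ω U V) : IsB a α Ω U V := by
  obtain ⟨h1, h2, h3, h4, h5, h6⟩ := h
  have hp : 2 < α + 2 := by linarith
  have hU := H10.toHX h1
  have hV := H10.toHX h2
  have hip : Integrable (fun x => |(U.2 : E N → ℝ) x| ^ (α + 2)) volume := by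
    have := h5.integrable_norm_rpow (by simp; linarith) (by simp)
    rw [ENNReal.toReal_ofReal (by linarith)] at this
    simpa [Real.norm_eq_abs] using this
  have hoff : ∀ᵐ x, x ∉ Ω → (U.2 : E N → ℝ) x = 0 := by
    have h7 := hV.off.1
    rw [h3] at h7
    filter_upwards [h7, Lp.coeFn_neg U.2] with x hx hx2 hxΩ
    have := hx hxΩ
    rw [hx2, Pi.neg_apply, neg_eq_zero] at this
    exact this
  have hγm : AEStronglyMeasurable (fun x => a * g (α + 2) ((U.2 : E N → ℝ) x)) volume :=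
    ((HX.g_continuous hp).comp_aestronglyMeasurable (Lp.memLp U.2).1).const_mul a
  have hγ : Integrable (fun x => a * g (α + 2) ((U.2 : E N → ℝ) x)) volume := by
    have i1 : Integrable (fun x => Ω.indicator (fun _ => (1 : ℝ)) x) volume := by
      rw [integrable_indicator_iff hΩ.measurableSet]
      exact integrableOn_const hb.measure_lt_top.ne
    refine Integrable.mono' ((i1.add hip).const_mul |a|) hγm ?_
    filter_upwards [hoff] with x hx
    rw [norm_mul, Real.norm_eq_abs, Real.norm_eq_abs, HX.abs_g hp]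
    refine mul_le_mul_of_nonneg_left ?_ (abs_nonneg _)
    simp only [Pi.add_apply]
    by_cases hxΩ : x ∈ Ω
    · rw [indicator_of_mem hxΩ]
      by_cases h8 : |(U.2 : E N → ℝ) x| ≤ 1
      · have : |(U.2 : E N → ℝ) x| ^ (α + 2 - 1) ≤ 1 :=
          Real.rpow_le_one (abs_nonneg _) h8 (by linarith)
        have h9 : 0 ≤ |(U.2 : E N → ℝ) x| ^ (α + 2) := by positivity
        linarith
      · push Not at h8
        have : |(U.2 : E N → ℝ) x| ^ (α + 2 - 1) ≤ |(U.2 : E N → ℝ) x| ^ (α + 2) :=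
          Real.rpow_le_rpow_of_exponent_le h8.le (by linarith)
        linarith
    · rw [indicator_of_notMem hxΩ, hx hxΩ, abs_zero, Real.zero_rpow (by linarith),
        Real.zero_rpow (by linarith)]
      simp
  refine ⟨hU, hV, h3, hip, fun z Z hz hzp => ?_⟩
  refine test_ext hΩ (Lp.memLp _) (Lp.memLp _) hγ ?_ hz ?_
  · intro φ hφ
    rw [← h6 φ hφ]
    congr 1
    refine integral_congr_ae (ae_of_all _ fun x => ?_)
    simp only [g]
    rw [show α + 2 - 2 = α by ring]
    ring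
  · have := (young_int hp (Lp.memLp U.2).1 hz.1.1 hip hzp).const_mul a
    simpa [mul_assoc] using this

/-- monotonicity -/
theorem IsB.mono {a α : ℝ} (ha : 0 ≤ a) (hα : 0 < α) {U V U' V' : St N} (h : IsB a α Ω U V)
    (h' : IsB a α Ω U' V') :
    0 ≤ ⟪V.2 - V'.2, U.2 - U'.2⟫ + ⟪V.1.2 - V'.1.2, U.1.2 - U'.1.2⟫ := by
  have hp : 2 < α + 2 := by linarith
  set z : E N → ℝ := fun x => (-1) * ((V.1.1 : E N → ℝ) x - (V'.1.1 : E N → ℝ) x) with hz
  set Z : E N → E N := fun x => (-1 : ℝ) • ((V.1.2 : E N → E N) x - (V'.1.2 : E N → E N) x)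
    with hZ
  have hH : HX.H10 Ω z Z := (h.mV.sub h'.mV).smul (-1)
  have hze : z =ᵐ[volume] fun x => (U.2 : E N → ℝ) x - (U'.2 : E N → ℝ) x := by
    filter_upwards [Lp.coeFn_neg U.2, Lp.coeFn_neg U'.2] with x h1 h2
    simp only [hz]
    rw [h.eV, h'.eV, h1, h2]
    simp only [Pi.neg_apply]
    ring
  have hzp : Integrable (fun x => |z x| ^ (α + 2)) volume := by
    refine Integrable.mono' ((h.ip.add h'.ip).const_mul ((2 : ℝ) ^ (α + 2 - 1))) ?_ ?_
    · exact (HX.abs_rpow_continuous (by linarith)).comp_aestronglyMeasurable hH.1.1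
    · filter_upwards [hze] with x hx
      rw [hx, Real.norm_of_nonneg (by positivity)]
      refine le_trans ?_ (HX.real_rpow_add_le (abs_nonneg _) (abs_nonneg _) (by linarith))
      exact Real.rpow_le_rpow (abs_nonneg _) (abs_sub _ _) (by linarith)
  have e1 := h.eq z Z hH hzp
  have e2 := h'.eq z Z hH hzp
  have i1 : Integrable (fun x => ⟪(U.1.2 : E N → E N) x, Z x⟫) volume :=
    inner_int (Lp.memLp U.1.2) hH.2.1
  have i2 : Integrable (fun x => ⟪(U'.1.2 : E N → E N) x, Z x⟫) volume :=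
    inner_int (Lp.memLp U'.1.2) hH.2.1
  have i3 : Integrable (fun x => a * g (α + 2) ((U.2 : E N → ℝ) x) * z x) volume := by
    have := (young_int hp (Lp.memLp U.2).1 hH.1.1 h.ip hzp).const_mul a
    simpa [mul_assoc] using this
  have i4 : Integrable (fun x => a * g (α + 2) ((U'.2 : E N → ℝ) x) * z x) volume := by
    have := (young_int hp (Lp.memLp U'.2).1 hH.1.1 h'.ip hzp).const_mul a
    simpa [mul_assoc] using this
  have i5 : Integrable (fun x => (V.2 : E N → ℝ) x * z x) volume :=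
    (Lp.memLp V.2).integrable_mul hH.1
  have i6 : Integrable (fun x => (V'.2 : E N → ℝ) x * z x) volume :=
    (Lp.memLp V'.2).integrable_mul hH.1
  have e3 : ⟪V.2 - V'.2, U.2 - U'.2⟫ = (∫ x, (V.2 : E N → ℝ) x * z x) -
      ∫ x, (V'.2 : E N → ℝ) x * z x := by
    rw [← integral_sub i5 i6, L2.inner_def]
    refine integral_congr_ae ?_
    filter_upwards [hze, Lp.coeFn_sub V.2 V'.2, Lp.coeFn_sub U.2 U'.2] with x h1 h2 h3
    rw [h2, h3, h1]
    simp only [Pi.sub_apply, RCLike.inner_apply, conj_trivial]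
    ring
  have e4 : ⟪V.1.2 - V'.1.2, U.1.2 - U'.1.2⟫ = -((∫ x, ⟪(U.1.2 : E N → E N) x, Z x⟫) -
      ∫ x, ⟪(U'.1.2 : E N → E N) x, Z x⟫) := by
    rw [← integral_sub i1 i2, L2.inner_def, ← integral_neg]
    refine integral_congr_ae ?_
    filter_upwards [Lp.coeFn_sub V.1.2 V'.1.2, Lp.coeFn_sub U.1.2 U'.1.2] with x h2 h3
    rw [h2, h3]
    simp only [Pi.sub_apply, hZ, inner_smul_right, inner_sub_left, inner_sub_right]
    rw [real_inner_comm ((V.1.2 : E N → E N) x), real_inner_comm ((V.1.2 : E N → E N) x),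
      real_inner_comm ((V'.1.2 : E N → E N) x), real_inner_comm ((V'.1.2 : E N → E N) x)]
    ring
  have e5 : 0 ≤ (∫ x, a * g (α + 2) ((U.2 : E N → ℝ) x) * z x) -
      ∫ x, a * g (α + 2) ((U'.2 : E N → ℝ) x) * z x := by
    rw [← integral_sub i3 i4]
    refine integral_nonneg_of_ae ?_
    filter_upwards [hze] with x h1
    simp only [Pi.zero_apply]
    rw [h1]
    have := mul_nonneg ha (HX.X_nonneg hp ((U.2 : E N → ℝ) x) ((U'.2 : E N → ℝ) x))
    nlinarith
  rw [e3, e4]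
  linarith

/-- the energy part of a state -/
noncomputable def PP (U : St N) : WithLp 2 (L2 N × L2v N) := WithLp.toLp 2 (U.2, U.1.2)

theorem PP_sub (U V : St N) : PP (U - V) = PP U - PP V := rfl

theorem PP_add (U V : St N) : PP (U + V) = PP U + PP V := rfl

theorem PP_smul (c : ℝ) (U : St N) : PP (c • U) = c • PP U := rfl

theorem PP_norm_sq (U : St N) : ‖PP U‖ ^ 2 = energy U := by
  rw [WithLp.prod_norm_sq_eq_of_L2]
  rfl

theorem PP_norm_le (U : St N) : ‖PP U‖ ≤ 2 * ‖U‖ := by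
  have h1 : ‖U.2‖ ≤ ‖U‖ := le_max_right _ _
  have h2 : ‖U.1.2‖ ≤ ‖U‖ := (le_max_right ‖U.1.1‖ ‖U.1.2‖).trans (le_max_left ‖U.1‖ ‖U.2‖)
  have h3 := PP_norm_sq U
  rw [energy] at h3
  have h4 := norm_nonneg U
  have h5 := norm_nonneg U.2
  have h6 := norm_nonneg U.1.2
  refine le_of_sq_le_sq ?_ (by positivity)
  rw [h3]
  nlinarith

theorem PP_inner (U V : St N) : ⟪PP U, PP V⟫ = ⟪U.2, V.2⟫ + ⟪U.1.2, V.1.2⟫ := by
  rw [WithLp.prod_inner_apply]
  rfl

/-- contraction -/
theorem contraction {a α h : ℝ} (ha : 0 ≤ a) (hα : 0 < α) (hh : 0 ≤ h) (K : ℕ)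
    {U A U' A' R : ℕ → St N}
    (hB : ∀ k < K, IsB a α Ω (U (k + 1)) (A (k + 1)))
    (hB' : ∀ k < K, IsB a α Ω (U' (k + 1)) (A' (k + 1)))
    (hs : ∀ k < K, (U (k + 1) - U' (k + 1)) - (U k - U' k) =
      -(h • (A (k + 1) - A' (k + 1))) + R (k + 1)) :
    ‖PP (U K - U' K)‖ ≤ ‖PP (U 0 - U' 0)‖ + ∑ k ∈ Finset.range K, ‖PP (R (k + 1))‖ := by
  induction K with
  | zero => simp
  | succ K ih =>
    have ih' := ih (fun k hk => hB k (by omega)) (fun k hk => hB' k (by omega))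
      (fun k hk => hs k (by omega))
    rw [Finset.sum_range_succ, ← add_assoc]
    refine le_trans ?_ (add_le_add_left ih' _)
    have h1 := hs K (by omega)
    have h2 := (hB K (by omega)).mono ha hα (hB' K (by omega))
    set D := U (K + 1) - U' (K + 1) with hD
    set D0 := U K - U' K with hD0
    have h3 : 0 ≤ ⟪PP (A (K + 1) - A' (K + 1)), PP D⟫ := by
      rw [PP_inner]
      exact h2
    have h4 : PP D = PP D0 - h • PP (A (K + 1) - A' (K + 1)) + PP (R (K + 1)) := by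
      rw [← PP_smul, ← PP_sub, ← PP_add]
      congr 1
      rw [sub_eq_iff_eq_add] at h1
      rw [h1]
      abel
    have h5 : ‖PP D‖ ^ 2 ≤ (‖PP D0‖ + ‖PP (R (K + 1))‖) * ‖PP D‖ := by
      rw [← real_inner_self_eq_norm_sq]
      nth_rewrite 1 [h4]
      rw [inner_add_left, inner_sub_left, inner_smul_left]
      simp only [conj_trivial]
      have h6 := real_inner_le_norm (PP D0) (PP D)
      have h7 := real_inner_le_norm (PP (R (K + 1))) (PP D)
      have h8 := mul_nonneg hh h3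
      linarith
    by_cases h9 : ‖PP D‖ = 0
    · rw [h9]; positivity
    · have h10 : 0 < ‖PP D‖ := lt_of_le_of_ne (norm_nonneg _) (Ne.symm h9)
      rw [sq] at h5
      exact le_of_mul_le_mul_right h5 h10

end Pool.Agent.H40.Hx
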