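import Mathlib

/-!
# Sampling an integrable function along an arithmetic progression
-/

set_option autoImplicit false

open MeasureTheory Filter Topology Metric Set

namespace Pool.Agent.H40.Hx

/-- Sampling: for an integrable `Ψ` on `(0, T]` and a property `P` that holds almost everywhere
there is an offset `σ ∈ (0, h)`, `h = T/(K+1)`, such that `P` holds at all the points `σ + k h`
and the Riemann sum of `Ψ` at these points is at most the integral. -/
theorem sample {T : ℝ} (hT : 0 < T) (K : ℕ) (Ψ : ℝ → ℝ) (P : ℝ → Prop)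
    (hΨ : IntegrableOn Ψ (Ioc 0 T))
    (hP : ∀ᵐ t ∂(volume.restrict (Ioc 0 T)), P t) :
    ∃ σ ∈ Ioo 0 (T / (K + 1)), (∀ k ≤ K, P (σ + k * (T / (K + 1)))) ∧
      (T / (K + 1)) * ∑ k ∈ Finset.range (K + 1), Ψ (σ + k * (T / (K + 1)))
        ≤ ∫ t in (0 : ℝ)..T, Ψ t := by
  set h : ℝ := T / (K + 1) with hh
  have hK : (0 : ℝ) < K + 1 := by positivity
  have hh0 : 0 < h := div_pos hT hK
  have hhT : h * (K + 1) = T := by rw [hh]; field_simp
  have hsub : ∀ k : ℕ, k ≤ K → ∀ s ∈ Ioo 0 h, s + k * h ∈ Ioc 0 T := by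
    intro k hk s hs
    have hkK : (k : ℝ) ≤ K := by exact_mod_cast hk
    refine ⟨by have := hs.1; positivity, ?_⟩
    have := hs.2
    nlinarith
  -- integrability of translates
  have hint : ∀ k : ℕ, k ≤ K → IntervalIntegrable (fun s => Ψ (s + k * h)) volume 0 h := by
    intro k hk
    have hkK : (k : ℝ) ≤ K := by exact_mod_cast hk
    have h1 : IntervalIntegrable Ψ volume (k * h) (h + k * h) := by
      have h2 : IntervalIntegrable Ψ volume 0 T := by
        rw [intervalIntegrable_iff_integrableOn_Ioc_of_le hT.le]; exact hΨ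
      refine h2.mono_set ?_
      rw [uIcc_of_le (by nlinarith [hh0.le]), uIcc_of_le hT.le]
      refine Icc_subset_Icc (by positivity) (by nlinarith)
    have := h1.comp_add_right (k * h)
    simpa using this
  have hsum : ∫ s in (0 : ℝ)..h, ∑ k ∈ Finset.range (K + 1), Ψ (s + k * h)
      = ∫ t in (0 : ℝ)..T, Ψ t := by
    rw [intervalIntegral.integral_finsetSum]
    · have h1 : ∀ k ∈ Finset.range (K + 1), ∫ s in (0 : ℝ)..h, Ψ (s + k * h)
          = ∫ t in ((fun k : ℕ => (k : ℝ) * h) k)..((fun k : ℕ => (k : ℝ) * h) (k + 1)), Ψ t := by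
        intro k hk
        rw [intervalIntegral.integral_comp_add_right]
        congr 1
        · simp
        · push_cast; ring
      rw [Finset.sum_congr rfl h1, intervalIntegral.sum_integral_adjacent_intervals]
      · simp only [Nat.cast_zero, zero_mul]
        congr 1
        rw [← hhT]; push_cast; ring
      · intro k hk
        have hk' : k ≤ K := by omega
        have := (hint k hk').comp_sub_right (k * h)
        simp only [sub_add_cancel, zero_add] at this
        have e1 : ((k + 1 : ℕ) : ℝ) * h = h + k * h := by push_cast; ring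
        simp only [e1]
        exact this
    · intro k hk
      exact hint k (by simpa [Nat.lt_succ_iff] using hk)
  -- the exceptional set
  have hnull : ∀ k : ℕ, k ≤ K → ∀ᵐ s ∂(volume.restrict (Ioo 0 h)), P (s + k * h) := by
    intro k hk
    rw [ae_restrict_iff' measurableSet_Ioo]
    rw [ae_restrict_iff' measurableSet_Ioc] at hP
    have hmp : MeasurePreserving (fun s : ℝ => s + k * h) volume volume :=
      measurePreserving_add_right volume (k * h)
    have := hmp.quasiMeasurePreserving.ae hP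
    filter_upwards [this] with s hs hs2
    exact hs (hsub k hk s hs2)
  have hall : ∀ᵐ s ∂(volume.restrict (Ioo 0 h)), ∀ k ≤ K, P (s + k * h) := by
    rw [ae_all_iff]
    intro k
    by_cases hk : k ≤ K
    · filter_upwards [hnull k hk] with s hs _
      exact hs
    · filter_upwards with s hs
      exact absurd hs hk
  have hall2 : ∀ᵐ s ∂(volume.restrict (Ioo 0 h)), s ∈ Ioo 0 h ∧ ∀ k ≤ K, P (s + k * h) := by
    filter_upwards [hall, ae_restrict_mem measurableSet_Ioo] with s h1 h2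
    exact ⟨h2, h1⟩
  have hμ : (volume.restrict (Ioo 0 h)) ≠ 0 := by
    intro h0
    have := congrArg (fun m : Measure ℝ => m Set.univ) h0
    simp [Real.volume_Ioo] at this
    linarith
  have hint2 : Integrable (fun s => ∑ k ∈ Finset.range (K + 1), Ψ (s + k * h))
      (volume.restrict (Ioo 0 h)) := by
    refine integrable_finsetSum _ ?_
    intro k hk
    have := hint k (by simpa [Nat.lt_succ_iff] using hk)
    rw [intervalIntegrable_iff_integrableOn_Ioo_of_le hh0.le] at this
    exact this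
  have : IsFiniteMeasure (volume.restrict (Ioo 0 h)) := by
    constructor; simp [Real.volume_Ioo]
  obtain ⟨σ, hσ, hle⟩ := exists_notMem_null_le_average hμ hint2 (show
    (volume.restrict (Ioo 0 h)) {s | ¬ (s ∈ Ioo 0 h ∧ ∀ k ≤ K, P (s + k * h))} = 0 from hall2)
  simp only [mem_ofPred_eq, not_not] at hσ
  refine ⟨σ, hσ.1, hσ.2, ?_⟩
  have hav : ⨍ s, ∑ k ∈ Finset.range (K + 1), Ψ (s + k * h) ∂(volume.restrict (Ioo 0 h))
      = h⁻¹ * ∫ t in (0 : ℝ)..T, Ψ t := by
    rw [average_eq, ← hsum, intervalIntegral.integral_of_le hh0.le, integral_Ioc_eq_integral_Ioo]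
    simp [Measure.real, Real.volume_Ioo, hh0.le]
  rw [hav] at hle
  calc h * ∑ k ∈ Finset.range (K + 1), Ψ (σ + k * h)
      ≤ h * (h⁻¹ * ∫ t in (0 : ℝ)..T, Ψ t) := mul_le_mul_of_nonneg_left hle hh0.le
    _ = ∫ t in (0 : ℝ)..T, Ψ t := by field_simp

theorem hII {X : Type*} [NormedAddCommGroup X] {T : ℝ} (hT : 0 < T) {φ : ℝ → X}
    (hφ : IntegrableOn φ (Ioc 0 T)) (s t : ℝ) (hs : s ∈ Icc 0 T) (ht : t ∈ Icc 0 T) :
    IntervalIntegrable φ volume s t := by
  have h2 : IntervalIntegrable φ volume 0 T := by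
    rw [intervalIntegrable_iff_integrableOn_Ioc_of_le hT.le]; exact hφ
  refine h2.mono_set ?_
  rw [uIcc_of_le hT.le]
  exact uIcc_subset_Icc hs ht

/-- Sampling of an absolutely continuous function with values in a Banach space: for a suitable
offset the sampled values satisfy the implicit Euler relation up to a small total error. -/
theorem sample_ac {X : Type*} [NormedAddCommGroup X] [NormedSpace ℝ X] [CompleteSpace X]
    {T : ℝ} (hT : 0 < T) (W U : ℝ → X) (U0 : X) (hW : IntegrableOn W (Ioc 0 T))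
    (hU : ∀ t ∈ Icc 0 T, U t = U0 + ∫ s in (0 : ℝ)..t, W s)
    (Ψ : ℝ → ℝ) (hΨ : IntegrableOn Ψ (Ioc 0 T)) (P : ℝ → Prop)
    (hP : ∀ᵐ t ∂(volume.restrict (Ioc 0 T)), P t) {ε : ℝ} (hε : 0 < ε) :
    ∃ K₀ : ℕ, ∀ K ≥ K₀, ∃ σ ∈ Ioo 0 (T / (K + 1)), (∀ k ≤ K, P (σ + k * (T / (K + 1)))) ∧
      ∑ k ∈ Finset.range K, ‖U (σ + (k + 1 : ℕ) * (T / (K + 1))) - U (σ + k * (T / (K + 1)))
          - (T / (K + 1)) • W (σ + (k + 1 : ℕ) * (T / (K + 1)))‖
        + (T / (K + 1)) * ∑ k ∈ Finset.range (K + 1), Ψ (σ + k * (T / (K + 1)))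
        ≤ (∫ t in (0 : ℝ)..T, Ψ t) + ε := by
  obtain ⟨g, hgc, hgε, hg, hgi⟩ := Integrable.exists_hasCompactSupport_integral_sub_le
    (μ := volume.restrict (Ioc 0 T)) hW (show (0 : ℝ) < ε / 3 by positivity)
  have huc := hgc.uniformContinuous_of_continuous hg
  obtain ⟨δ, hδ, hδ2⟩ := Metric.uniformContinuous_iff.1 huc (ε / (3 * T)) (by positivity)
  obtain ⟨K₀, hK₀⟩ := exists_nat_gt (T / δ)
  refine ⟨K₀, fun K hK => ?_⟩
  have hWg : IntegrableOn (fun t => ‖W t - g t‖) (Ioc 0 T) := (hW.sub hgi).norm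
  have hKpos : (0 : ℝ) < K + 1 := by positivity
  obtain ⟨σ, hσ, hσP, hσΨ⟩ := sample hT K (fun t => Ψ t + ‖W t - g t‖) P (hΨ.add hWg) hP
  refine ⟨σ, hσ, hσP, ?_⟩
  set h : ℝ := T / (K + 1) with hh
  have hh0 : 0 < h := div_pos hT hKpos
  have hhT : h * (K + 1) = T := by rw [hh]; field_simp
  have hhδ : h < δ := by
    rw [hh, div_lt_iff₀ hKpos]
    have h1 : (K₀ : ℝ) ≤ K := by exact_mod_cast hK
    rw [div_lt_iff₀ hδ] at hK₀
    nlinarith
  have hmem : ∀ k : ℕ, k ≤ K → σ + k * h ∈ Icc 0 T := by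
    intro k hk
    have hkK : (k : ℝ) ≤ K := by exact_mod_cast hk
    have := hσ.1; have h2 := hσ.2
    exact ⟨by positivity, by nlinarith⟩
  have hstep : ∀ k ∈ Finset.range K, ‖U (σ + (k + 1 : ℕ) * h) - U (σ + k * h)
      - h • W (σ + (k + 1 : ℕ) * h)‖ ≤ (∫ s in (σ + (k : ℕ) * h)..(σ + (k + 1 : ℕ) * h),
        ‖W s - g s‖) + h * (ε / (3 * T)) + h * ‖W (σ + (k + 1 : ℕ) * h)
          - g (σ + (k + 1 : ℕ) * h)‖ := by
    intro k hk
    rw [Finset.mem_range] at hk
    have hm1 := hmem k hk.le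
    have hm2 := hmem (k + 1) hk
    set s1 := σ + (k : ℕ) * h
    set s2 := σ + (k + 1 : ℕ) * h
    have hs12 : s2 - s1 = h := by simp only [s1, s2]; push_cast; ring
    have hle : s1 ≤ s2 := by linarith
    have e1 : U s2 - U s1 - h • W s2 = ∫ s in s1..s2, (W s - W s2) := by
      rw [hU _ hm1, hU _ hm2, intervalIntegral.integral_sub (hII hT hW _ _ hm1 hm2)
        intervalIntegrable_const, intervalIntegral.integral_const, hs12,
        ← intervalIntegral.integral_interval_sub_left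
          (hII hT hW 0 s2 ⟨le_rfl, hT.le⟩ hm2) (hII hT hW 0 s1 ⟨le_rfl, hT.le⟩ hm1)]
      abel
    rw [e1]
    have hi1 : IntervalIntegrable (fun s => ‖W s - g s‖) volume s1 s2 :=
      hII hT hWg _ _ hm1 hm2
    calc ‖∫ s in s1..s2, (W s - W s2)‖
        ≤ ∫ s in s1..s2, (‖W s - g s‖ + (ε / (3 * T) + ‖W s2 - g s2‖)) := by
          refine intervalIntegral.norm_integral_le_of_norm_le hle ?_
            (hi1.add intervalIntegrable_const)
          refine Filter.Eventually.of_forall fun s hs => ?_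
          have hd : dist s s2 < δ := by
            rw [Real.dist_eq, abs_lt]
            constructor <;> linarith [hs.1, hs.2]
          have h3 : ‖g s - g s2‖ ≤ ε / (3 * T) := by
            rw [← dist_eq_norm]; exact (hδ2 hd).le
          calc ‖W s - W s2‖ = ‖(W s - g s) + ((g s - g s2) + (g s2 - W s2))‖ := by congr 1; abel
            _ ≤ ‖W s - g s‖ + (‖g s - g s2‖ + ‖g s2 - W s2‖) :=
                (norm_add_le _ _).trans (by gcongr; exact norm_add_le _ _)
            _ ≤ ‖W s - g s‖ + (ε / (3 * T) + ‖W s2 - g s2‖) := by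
                rw [norm_sub_rev (g s2)]; gcongr
      _ = (∫ s in s1..s2, ‖W s - g s‖) + h * (ε / (3 * T)) + h * ‖W s2 - g s2‖ := by
          rw [intervalIntegral.integral_add hi1 intervalIntegrable_const,
            intervalIntegral.integral_const, hs12, smul_eq_mul]
          ring
  have hsum1 : ∑ k ∈ Finset.range K, (∫ s in (σ + (k : ℕ) * h)..(σ + (k + 1 : ℕ) * h),
        ‖W s - g s‖) ≤ ε / 3 := by
    rw [intervalIntegral.sum_integral_adjacent_intervals (a := fun k : ℕ => σ + (k : ℕ) * h)]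
    · have hm1 := hmem 0 (Nat.zero_le _)
      have hm2 := hmem K le_rfl
      have hle : σ + (0 : ℕ) * h ≤ σ + (K : ℕ) * h := by
        simp only [Nat.cast_zero, zero_mul, add_zero]
        have : 0 ≤ (K : ℝ) * h := by positivity
        linarith
      rw [intervalIntegral.integral_of_le hle]
      refine le_trans ?_ hgε
      refine setIntegral_mono_set hWg ?_ ?_
      · exact Filter.Eventually.of_forall fun s => norm_nonneg _
      · exact (Ioc_subset_Ioc hm1.1 hm2.2).eventuallyLE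
    · intro k hk
      exact hII hT hWg _ _ (hmem k hk.le) (hmem (k + 1) hk)
  have hsum2 : ∑ k ∈ Finset.range K, ‖W (σ + (k + 1 : ℕ) * h) - g (σ + (k + 1 : ℕ) * h)‖
      ≤ ∑ k ∈ Finset.range (K + 1), ‖W (σ + k * h) - g (σ + k * h)‖ := by
    rw [Finset.sum_range_succ' _ K]
    have : 0 ≤ ‖W (σ + (0 : ℕ) * h) - g (σ + (0 : ℕ) * h)‖ := norm_nonneg _
    linarith
  have hintsplit : ∫ t in (0 : ℝ)..T, (Ψ t + ‖W t - g t‖)
      = (∫ t in (0 : ℝ)..T, Ψ t) + ∫ t in (0 : ℝ)..T, ‖W t - g t‖ := by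
    rw [intervalIntegral.integral_add]
    · exact hII hT hΨ _ _ ⟨le_rfl, hT.le⟩ ⟨hT.le, le_rfl⟩
    · exact hII hT hWg _ _ ⟨le_rfl, hT.le⟩ ⟨hT.le, le_rfl⟩
  have hintg : ∫ t in (0 : ℝ)..T, ‖W t - g t‖ ≤ ε / 3 := by
    rw [intervalIntegral.integral_of_le hT.le]; exact hgε
  have hfin : ∑ k ∈ Finset.range K, ‖U (σ + (k + 1 : ℕ) * h) - U (σ + k * h)
      - h • W (σ + (k + 1 : ℕ) * h)‖ ≤ ε / 3 + K * (h * (ε / (3 * T)))
        + h * ∑ k ∈ Finset.range (K + 1), ‖W (σ + k * h) - g (σ + k * h)‖ := by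
    refine (Finset.sum_le_sum hstep).trans ?_
    rw [Finset.sum_add_distrib, Finset.sum_add_distrib, Finset.sum_const, Finset.card_range,
      nsmul_eq_mul, ← Finset.mul_sum]
    have := mul_le_mul_of_nonneg_left hsum2 hh0.le
    linarith
  have hKh : K * (h * (ε / (3 * T))) ≤ ε / 3 := by
    have h1 : (K : ℝ) * h ≤ T := by nlinarith
    calc K * (h * (ε / (3 * T))) = (K * h) * (ε / (3 * T)) := by ring
      _ ≤ T * (ε / (3 * T)) := by gcongr
      _ = ε / 3 := by field_simp
  rw [hintsplit] at hσΨ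
  rw [Finset.sum_add_distrib, mul_add] at hσΨ
  linarith

end Pool.Agent.H40.Hx
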