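import Mathlib
import Pool.Agent.H15.Hx.Defs
import Pool.Agent.H25.HX.ExistC
import Pool.Agent.H40.Hx.TComp

/-!
# Existence of discrete solutions
-/

set_option autoImplicit false

open MeasureTheory Filter Topology Metric Set
open scoped ContDiff RealInnerProductSpace

namespace Pool.Agent.H40.Hx

open Pool.Agent.H25
open Pool.Agent.H25.HX (Tst g)
open Pool.Agent.H15.Hx (Par Sol)

variable {N : ℕ} {Ω : Set (E N)}

/-- one state of the discrete evolution: displacement, velocity, Laplacian of the displacement -/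
structure DState (Ω : Set (E N)) (p : ℝ) where
  u : E N → ℝ
  Du : E N → E N
  z : E N → ℝ
  Dz : E N → E N
  l : E N → ℝ
  hz : HX.H10 Ω z Dz
  hg : MemLp (fun x => g p (z x)) 2 volume
  hl : MemLp l 2 volume
  hDu : MemLp Du 2 volume
  hlap : ∀ (ψ : E N → ℝ) (Ψ : E N → E N), HX.H10 Ω ψ Ψ →
    ∫ x, ⟪Du x, Ψ x⟫ = ∫ x, l x * ψ x

theorem dstep {p δ : ℝ} (hp : 2 < p) (hδ : 0 < δ) {f : E N → ℝ} (hf : MemLp f 2 volume)
    (S : DState Ω p) : ∃ S' : DState Ω p, (∀ x, S'.u x = S.u x + δ * S'.z x) ∧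
      (∀ x, S'.Du x = S.Du x + δ • S'.Dz x) ∧
      ∀ x, S'.l x = f x - g p (S'.z x) - (S'.z x - S.z x) / δ := by
  have hR : MemLp (fun x => S.z x - δ * S.l x + δ * f x) 2 volume :=
    (S.hz.1.sub (S.hl.const_mul δ)).add (hf.const_mul δ)
  obtain ⟨v, V, h1, h2, h3, h4⟩ := HX.one_step (Ω := Ω) (a := 1) hp one_pos hδ hR
  have hl' : MemLp (fun x => f x - g p (v x) - (v x - S.z x) / δ) 2 volume := by
    refine (hf.sub h2).sub ?_
    have := (h1.1.sub S.hz.1).const_mul δ⁻¹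
    refine (memLp_congr_ae (ae_of_all _ fun x => ?_)).1 this
    simp only [Pi.sub_apply]
    field_simp
  refine ⟨⟨fun x => S.u x + δ * v x, fun x => S.Du x + δ • V x, v, V,
    fun x => f x - g p (v x) - (v x - S.z x) / δ, h1, h2, hl',
    S.hDu.add (h1.2.1.const_smul δ), ?_⟩, fun _ => rfl, fun _ => rfl, fun _ => rfl⟩
  intro ψ Ψ hψ
  have e1 := S.hlap ψ Ψ hψ
  have e2 := h4 ψ Ψ hψ
  have j1 : Integrable (fun x => ⟪S.Du x, Ψ x⟫) volume := inner_int S.hDu hψ.2.1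
  have j2 : Integrable (fun x => ⟪V x, Ψ x⟫) volume := inner_int h1.2.1 hψ.2.1
  have e3 : ∫ x, ⟪S.Du x + δ • V x, Ψ x⟫ = (∫ x, ⟪S.Du x, Ψ x⟫) + δ * ∫ x, ⟪V x, Ψ x⟫ := by
    rw [← integral_const_mul, ← integral_add j1 (j2.const_mul δ)]
    refine integral_congr_ae (ae_of_all _ fun x => ?_)
    simp only [inner_add_left, inner_smul_left, conj_trivial]
  have i1 : Integrable (fun x => v x * ψ x) volume := h1.1.integrable_mul hψ.1
  have i2 : Integrable (fun x => g p (v x) * ψ x) volume := h2.integrable_mul hψ.1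
  have i3 : Integrable (fun x => S.z x * ψ x) volume := S.hz.1.integrable_mul hψ.1
  have i4 : Integrable (fun x => S.l x * ψ x) volume := S.hl.integrable_mul hψ.1
  have i5 : Integrable (fun x => f x * ψ x) volume := hf.integrable_mul hψ.1
  have e4 : ∫ x, (S.z x - δ * S.l x + δ * f x) * ψ x =
      (∫ x, S.z x * ψ x) - δ * (∫ x, S.l x * ψ x) + δ * ∫ x, f x * ψ x := by
    have k1 : Integrable (fun x => S.z x * ψ x - δ * (S.l x * ψ x)) volume :=
      i3.sub (i4.const_mul δ)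
    rw [← integral_const_mul, ← integral_const_mul, ← integral_sub i3 (i4.const_mul δ),
      ← integral_add k1 (i5.const_mul δ)]
    refine integral_congr_ae (ae_of_all _ fun x => ?_)
    simp only
    ring
  have e5 : ∫ x, (f x - g p (v x) - (v x - S.z x) / δ) * ψ x =
      (∫ x, f x * ψ x) - (∫ x, g p (v x) * ψ x) -
        ((∫ x, v x * ψ x) - ∫ x, S.z x * ψ x) / δ := by
    have k1 : Integrable (fun x => v x * ψ x - S.z x * ψ x) volume := i1.sub i3
    have k2 : Integrable (fun x => f x * ψ x - g p (v x) * ψ x) volume := i5.sub i2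
    rw [div_eq_inv_mul, ← integral_sub i1 i3, ← integral_const_mul,
      ← integral_sub i5 i2, ← integral_sub k2 (k1.const_mul δ⁻¹)]
    refine integral_congr_ae (ae_of_all _ fun x => ?_)
    simp only
    field_simp
  rw [e3, e5, e1]
  rw [e4] at e2
  have hδ' : δ ≠ 0 := hδ.ne'
  have e6 : δ * (δ * ∫ x, ⟪V x, Ψ x⟫) = (∫ x, S.z x * ψ x) - δ * (∫ x, S.l x * ψ x) +
      δ * (∫ x, f x * ψ x) - (∫ x, v x * ψ x) - δ * ∫ x, g p (v x) * ψ x := by
    linarith
  have e7 : δ * ∫ x, ⟪V x, Ψ x⟫ = ((∫ x, S.z x * ψ x) - δ * (∫ x, S.l x * ψ x) +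
      δ * (∫ x, f x * ψ x) - (∫ x, v x * ψ x) - δ * ∫ x, g p (v x) * ψ x) / δ := by
    rw [eq_div_iff hδ', ← e6]; ring
  rw [e7]
  field_simp
  ring

/-- the zero state -/
def dzero (Ω : Set (E N)) {p : ℝ} (_hp : 2 < p) : DState Ω p where
  u := fun _ => 0
  Du := fun _ => 0
  z := fun _ => 0
  Dz := fun _ => 0
  l := fun _ => 0
  hz := HX.H10.zero
  hg := by simp [HX.g_zero]
  hl := by simp
  hDu := by simp
  hlap := by intro ψ Ψ _; simp

/-- the discrete evolution -/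
noncomputable def dseq {p δ : ℝ} (hp : 2 < p) (hδ : 0 < δ) (f : ℕ → E N → ℝ)
    (hf : ∀ n, MemLp (f n) 2 volume) : ℕ → DState Ω p
  | 0 => dzero Ω hp
  | n + 1 => Classical.choose (dstep hp hδ (hf (n + 1)) (dseq hp hδ f hf n))

theorem dseq_spec {p δ : ℝ} (hp : 2 < p) (hδ : 0 < δ) (f : ℕ → E N → ℝ)
    (hf : ∀ n, MemLp (f n) 2 volume) (n : ℕ) :
    (∀ x, (dseq (Ω := Ω) hp hδ f hf (n + 1)).u x =
      (dseq (Ω := Ω) hp hδ f hf n).u x + δ * (dseq (Ω := Ω) hp hδ f hf (n + 1)).z x) ∧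
    (∀ x, (dseq (Ω := Ω) hp hδ f hf (n + 1)).Du x =
      (dseq (Ω := Ω) hp hδ f hf n).Du x + δ • (dseq (Ω := Ω) hp hδ f hf (n + 1)).Dz x) ∧
    ∀ x, (dseq (Ω := Ω) hp hδ f hf (n + 1)).l x = f (n + 1) x -
      g p ((dseq (Ω := Ω) hp hδ f hf (n + 1)).z x) -
      ((dseq (Ω := Ω) hp hδ f hf (n + 1)).z x - (dseq (Ω := Ω) hp hδ f hf n).z x) / δ :=
  Classical.choose_spec (dstep hp hδ (hf (n + 1)) (dseq hp hδ f hf n))

theorem Par.two_lt (P : Par) : 2 < P.p := by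
  have hN : (3 : ℝ) ≤ P.N := by exact_mod_cast P.hN
  refine lt_of_lt_of_le ?_ P.hp.le
  rw [lt_div_iff₀ (by linarith)]
  linarith

/-- existence of discrete solutions -/
theorem exists_sol (P : Par) (Ω : Set (E P.N)) {δ : ℝ} (hδ : 0 < δ) (hδ1 : δ ≤ 1)
    (f : ℕ → E P.N → ℝ) (hf : ∀ n, MemLp (f n) 2 volume) (hfs : ∀ n, ∀ x, x ∉ Ω → f n x = 0)
    (hf0 : ∀ x, f 0 x = 0) : ∃ S : Sol P Ω, S.δ = δ ∧ S.f = f := by
  let D := dseq (Ω := Ω) (Par.two_lt P) hδ f hf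
  have hs := dseq_spec (Ω := Ω) (Par.two_lt P) hδ f hf
  refine ⟨{ δ := δ, u := fun n => (D n).u, Du := fun n => (D n).Du, z := fun n => (D n).z,
            Dz := fun n => (D n).Dz, f := f, δ_pos := hδ, δ_le := hδ1,
            hz := fun n => (D n).hz, hg := fun n => (D n).hg, hf := hf, hfs := hfs,
            u_zero := fun _ => rfl, Du_zero := fun _ => rfl, z_zero := fun _ => rfl,
            Dz_zero := fun _ => rfl, f_zero := hf0, u_succ := fun n => (hs n).1,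
            Du_succ := fun n => (hs n).2.1, eqn := ?_ }, rfl, rfl⟩
  intro n ψ Ψ hψ
  rw [(D (n + 1)).hlap ψ Ψ hψ]
  refine integral_congr_ae (ae_of_all _ fun x => ?_)
  simp only
  rw [(hs n).2.2 x]

end Pool.Agent.H40.Hx
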