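import Mathlib
import Pool.Agent.H40.Hx.TSol
import Pool.Agent.H40.Hx.TSample

/-!
# From the discrete energy bound to weak solutions
-/

set_option autoImplicit false

open MeasureTheory Filter Topology Metric Set
open scoped ContDiff RealInnerProductSpace

namespace Pool.Agent.H40.Hx

open Pool.Agent.H25
open Pool.Agent.H25.HX (Tst g)
open Pool.Agent.H15.Hx (Par Sol)

/-- the discrete energy bound -/
def DiscreteBound : Prop :=
  ∀ (P : Par) (Ω : Set (E P.N)) (R M : ℝ), IsOpen Ω → Ω ⊆ Metric.ball 0 R →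
    ∃ C : ℝ, ∀ S : Sol P Ω, (∀ n, ∫ x, (S.f n x) ^ 2 ≤ M ^ 2) → ∀ n, S.En n ≤ C

theorem Sol.hu {P : Par} {Ω : Set (E P.N)} (S : Sol P Ω) (n : ℕ) :
    HX.H10 Ω (S.u n) (S.Du n) := by
  induction n with
  | zero =>
    refine HX.H10.zero.congr (ae_of_all _ fun x => ?_) (ae_of_all _ fun x => ?_)
    · exact (S.u_zero x).symm
    · exact (S.Du_zero x).symm
  | succ n ih =>
    refine (ih.add ((S.hz (n + 1)).smul S.δ)).congr (ae_of_all _ fun x => ?_)
      (ae_of_all _ fun x => ?_)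
    · exact (S.u_succ n x).symm
    · exact (S.Du_succ n x).symm

theorem Sol.zp {P : Par} {Ω : Set (E P.N)} (S : Sol P Ω) (n : ℕ) :
    Integrable (fun x => |S.z n x| ^ P.p) volume := by
  have := (S.hg n).integrable_mul (S.hz n).1
  refine this.congr (ae_of_all _ fun x => ?_)
  exact HX.g_mul_self (Par.two_lt P) _

theorem Sol.hl {P : Par} {Ω : Set (E P.N)} (S : Sol P Ω) (n : ℕ) :
    MemLp (fun x => S.f (n + 1) x - (S.z (n + 1) x - S.z n x) / S.δ) 2 volume := by
  refine (S.hf (n + 1)).sub ?_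
  have h1 := ((S.hz (n + 1)).1.sub (S.hz n).1).const_mul S.δ⁻¹
  have := S.δ_pos.ne'
  refine (memLp_congr_ae (ae_of_all _ fun x => ?_)).1 h1
  simp only [Pi.sub_apply]
  field_simp

/-- the state of the discrete solution, scaled by `c` -/
noncomputable def VV {P : Par} {Ω : Set (E P.N)} (S : Sol P Ω) (c : ℝ) (n : ℕ) : St P.N :=
  c • (((Sol.hu S n).1.toLp _, (Sol.hu S n).2.1.toLp _), (S.hz n).1.toLp _)

/-- the value of the operator, scaled by `c` -/
noncomputable def AA {P : Par} {Ω : Set (E P.N)} (S : Sol P Ω) (c : ℝ) (n : ℕ) : St P.N :=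
  c • ((-(S.hz (n + 1)).1.toLp _, -(S.hz (n + 1)).2.1.toLp _), (Sol.hl S n).toLp _)

theorem VV_energy {P : Par} {Ω : Set (E P.N)} (S : Sol P Ω) (c : ℝ) (n : ℕ) :
    energy (VV S c n) = c ^ 2 * S.En n := by
  have h1 := HX.toLp_norm_sq (S.hz n).1
  have h2 := HX.toLp_norm_sq (Sol.hu S n).2.1
  have h3 : S.En n = (∫ x, ‖S.Du n x‖ ^ 2) + ∫ x, ‖S.z n x‖ ^ 2 := by
    rw [Sol.En, ← integral_add (HX.sq_norm_integrable (Sol.hu S n).2.1)
      (HX.sq_norm_integrable (S.hz n).1)]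
    refine integral_congr_ae (ae_of_all _ fun x => ?_)
    simp [Real.norm_eq_abs, sq_abs]
  rw [energy, VV, h3, ← h1, ← h2]
  simp only [Prod.smul_snd, Prod.smul_fst, norm_smul, Real.norm_eq_abs]
  rw [mul_pow, mul_pow, sq_abs]
  ring

theorem VV_isB {P : Par} {Ω : Set (E P.N)} (S : Sol P Ω) {a c : ℝ} (hc : 0 < c)
    (hac : a * c ^ (P.p - 2) = 1) (n : ℕ) :
    IsB a (P.p - 2) Ω (VV S c (n + 1)) (AA S c n) := by
  have hp := Par.two_lt P
  have hp2 : P.p - 2 + 2 = P.p := by ring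
  have cu : ((VV S c (n + 1)).1.1 : E P.N → ℝ) =ᵐ[volume] fun x => c * S.u (n + 1) x := by
    have e : (VV S c (n + 1)).1.1 = c • (Sol.hu S (n + 1)).1.toLp _ := rfl
    rw [e]
    filter_upwards [Lp.coeFn_smul c ((Sol.hu S (n + 1)).1.toLp _),
      (Sol.hu S (n + 1)).1.coeFn_toLp] with x h1 h2
    rw [h1, Pi.smul_apply, h2, smul_eq_mul]
  have cU : ((VV S c (n + 1)).1.2 : E P.N → E P.N) =ᵐ[volume] fun x => c • S.Du (n + 1) x := by
    have e : (VV S c (n + 1)).1.2 = c • (Sol.hu S (n + 1)).2.1.toLp _ := rfl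
    rw [e]
    filter_upwards [Lp.coeFn_smul c ((Sol.hu S (n + 1)).2.1.toLp _),
      (Sol.hu S (n + 1)).2.1.coeFn_toLp] with x h1 h2
    rw [h1, Pi.smul_apply, h2]
  have cz : ((VV S c (n + 1)).2 : E P.N → ℝ) =ᵐ[volume] fun x => c * S.z (n + 1) x := by
    have e : (VV S c (n + 1)).2 = c • (S.hz (n + 1)).1.toLp _ := rfl
    rw [e]
    filter_upwards [Lp.coeFn_smul c ((S.hz (n + 1)).1.toLp _),
      (S.hz (n + 1)).1.coeFn_toLp] with x h1 h2
    rw [h1, Pi.smul_apply, h2, smul_eq_mul]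
  have cz' : ((AA S c n).1.1 : E P.N → ℝ) =ᵐ[volume] fun x => (-c) * S.z (n + 1) x := by
    have e : (AA S c n).1.1 = (-c) • (S.hz (n + 1)).1.toLp _ := by
      change c • (-(S.hz (n + 1)).1.toLp _) = _
      rw [smul_neg, neg_smul]
    rw [e]
    filter_upwards [Lp.coeFn_smul (-c) ((S.hz (n + 1)).1.toLp _),
      (S.hz (n + 1)).1.coeFn_toLp] with x h1 h2
    rw [h1, Pi.smul_apply, h2, smul_eq_mul]
  have cZ' : ((AA S c n).1.2 : E P.N → E P.N) =ᵐ[volume] fun x => (-c) • S.Dz (n + 1) x := by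
    have e : (AA S c n).1.2 = (-c) • (S.hz (n + 1)).2.1.toLp _ := by
      change c • (-(S.hz (n + 1)).2.1.toLp _) = _
      rw [smul_neg, neg_smul]
    rw [e]
    filter_upwards [Lp.coeFn_smul (-c) ((S.hz (n + 1)).2.1.toLp _),
      (S.hz (n + 1)).2.1.coeFn_toLp] with x h1 h2
    rw [h1, Pi.smul_apply, h2]
  have cl : ((AA S c n).2 : E P.N → ℝ) =ᵐ[volume] fun x => c * (S.f (n + 1) x -
      (S.z (n + 1) x - S.z n x) / S.δ) := by
    have e : (AA S c n).2 = c • (Sol.hl S n).toLp _ := rfl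
    rw [e]
    filter_upwards [Lp.coeFn_smul c ((Sol.hl S n).toLp _),
      (Sol.hl S n).coeFn_toLp] with x h1 h2
    rw [h1, Pi.smul_apply, h2, smul_eq_mul]
  refine ⟨?_, ?_, ?_, ?_, ?_⟩
  · exact ((Sol.hu S (n + 1)).smul c).congr cu.symm cU.symm
  · exact ((S.hz (n + 1)).smul (-c)).congr cz'.symm cZ'.symm
  · change c • (-(S.hz (n + 1)).1.toLp _) = -(c • (S.hz (n + 1)).1.toLp _)
    rw [smul_neg]
  · rw [hp2]
    refine ((Sol.zp S (n + 1)).const_mul (c ^ P.p)).congr ?_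
    filter_upwards [cz] with x hx
    rw [hx, abs_mul, abs_of_pos hc, Real.mul_rpow hc.le (abs_nonneg _)]
  · intro ζ Z hζ hζp
    rw [hp2] at hζp ⊢
    have e1 : ∫ x, ⟪((VV S c (n + 1)).1.2 : E P.N → E P.N) x, Z x⟫ =
        c * ∫ x, ⟪S.Du (n + 1) x, Z x⟫ := by
      rw [← integral_const_mul]
      refine integral_congr_ae ?_
      filter_upwards [cU] with x hx
      rw [hx, inner_smul_left]
      simp
    have e2 : ∫ x, a * g P.p (((VV S c (n + 1)).2 : E P.N → ℝ) x) * ζ x =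
        c * ∫ x, g P.p (S.z (n + 1) x) * ζ x := by
      rw [← integral_const_mul]
      refine integral_congr_ae ?_
      filter_upwards [cz] with x hx
      rw [hx, HX.g_mul hp hc]
      have e3 : c ^ (P.p - 1) = c ^ (P.p - 2) * c := by
        rw [show P.p - 1 = (P.p - 2) + 1 by ring, Real.rpow_add_one hc.ne']
      rw [e3]
      calc a * (c ^ (P.p - 2) * c * g P.p (S.z (n + 1) x)) * ζ x
          = (a * c ^ (P.p - 2)) * (c * (g P.p (S.z (n + 1) x) * ζ x)) := by ring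
        _ = c * (g P.p (S.z (n + 1) x) * ζ x) := by rw [hac, one_mul]
    have e3 : ∫ x, ((AA S c n).2 : E P.N → ℝ) x * ζ x =
        c * ∫ x, (S.f (n + 1) x - (S.z (n + 1) x - S.z n x) / S.δ) * ζ x := by
      rw [← integral_const_mul]
      refine integral_congr_ae ?_
      filter_upwards [cl] with x hx
      rw [hx]
      ring
    have e4 := S.eqn n ζ Z hζ
    have i1 : Integrable (fun x => (S.f (n + 1) x - (S.z (n + 1) x - S.z n x) / S.δ) * ζ x)
        volume := (Sol.hl S n).integrable_mul hζ.1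
    have i2 : Integrable (fun x => g P.p (S.z (n + 1) x) * ζ x) volume :=
      (S.hg (n + 1)).integrable_mul hζ.1
    have e5 : ∫ x, (S.f (n + 1) x - g P.p (S.z (n + 1) x) -
        (S.z (n + 1) x - S.z n x) / S.δ) * ζ x =
        (∫ x, (S.f (n + 1) x - (S.z (n + 1) x - S.z n x) / S.δ) * ζ x) -
          ∫ x, g P.p (S.z (n + 1) x) * ζ x := by
      rw [← integral_sub i1 i2]
      refine integral_congr_ae (ae_of_all _ fun x => ?_)
      simp only
      ring
    rw [e1, e2, e3, e4, e5]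
    ring

/-- the step relation of the scaled discrete solution -/
theorem VV_step {P : Par} {Ω : Set (E P.N)} (S : Sol P Ω) (c : ℝ) (n : ℕ) {F : L2 P.N}
    (hF : (F : E P.N → ℝ) =ᵐ[volume] fun x => c * S.f (n + 1) x) :
    VV S c (n + 1) - VV S c n + S.δ • AA S c n = S.δ • ((0, 0), F) := by
  have hδ := S.δ_pos.ne'
  ext1
  · ext1
    · change c • (Sol.hu S (n + 1)).1.toLp _ - c • (Sol.hu S n).1.toLp _ +
        S.δ • (c • (-(S.hz (n + 1)).1.toLp _)) = S.δ • (0 : L2 P.N)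
      rw [smul_zero]
      apply Lp.ext
      have e1 : (Sol.hu S (n + 1)).1.toLp _ = (Sol.hu S n).1.toLp _ +
          S.δ • (S.hz (n + 1)).1.toLp _ := by
        rw [← MemLp.toLp_const_smul, ← MemLp.toLp_add]
        refine MemLp.toLp_congr _ _ (ae_of_all _ fun x => ?_)
        rw [S.u_succ]
        rfl
      rw [e1]
      have e2 : c • ((Sol.hu S n).1.toLp _ + S.δ • (S.hz (n + 1)).1.toLp _) -
          c • (Sol.hu S n).1.toLp _ + S.δ • (c • (-(S.hz (n + 1)).1.toLp _)) =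
          (0 : L2 P.N) := by
        rw [smul_add, smul_neg, smul_neg, smul_comm c S.δ]
        abel
      rw [e2]
    · change c • (Sol.hu S (n + 1)).2.1.toLp _ - c • (Sol.hu S n).2.1.toLp _ +
        S.δ • (c • (-(S.hz (n + 1)).2.1.toLp _)) = S.δ • (0 : L2v P.N)
      rw [smul_zero]
      have e1 : (Sol.hu S (n + 1)).2.1.toLp _ = (Sol.hu S n).2.1.toLp _ +
          S.δ • (S.hz (n + 1)).2.1.toLp _ := by
        rw [← MemLp.toLp_const_smul, ← MemLp.toLp_add]
        refine MemLp.toLp_congr _ _ (ae_of_all _ fun x => ?_)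
        rw [S.Du_succ]
        rfl
      rw [e1, smul_add, smul_neg, smul_neg, smul_comm c S.δ]
      abel
  · change c • (S.hz (n + 1)).1.toLp _ - c • (S.hz n).1.toLp _ +
        S.δ • (c • (Sol.hl S n).toLp _) = S.δ • F
    apply Lp.ext
    have h1 : c • (S.hz (n + 1)).1.toLp _ - c • (S.hz n).1.toLp _ +
        S.δ • (c • (Sol.hl S n).toLp _) = MemLp.toLp (fun x => c * S.z (n + 1) x - c * S.z n x +
          S.δ * (c * (S.f (n + 1) x - (S.z (n + 1) x - S.z n x) / S.δ)))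
          ((((S.hz (n + 1)).1.const_mul c).sub ((S.hz n).1.const_mul c)).add
            (((Sol.hl S n).const_mul c).const_mul S.δ)) := rfl
    rw [h1]
    filter_upwards [MemLp.coeFn_toLp ((((S.hz (n + 1)).1.const_mul c).sub
      ((S.hz n).1.const_mul c)).add (((Sol.hl S n).const_mul c).const_mul S.δ)),
      Lp.coeFn_smul S.δ F, hF] with x h2 h3 h4
    rw [h3, Pi.smul_apply, h4, smul_eq_mul]
    refine h2.trans ?_
    simp only [Pi.add_apply, Pi.sub_apply]
    field_simp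
    ring

end Pool.Agent.H40.Hx
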