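import Mathlib
import Pool.Agent.H40.Hx.TFinal

/-!
# Bounded energy of weak solutions from the discrete energy bound
-/

set_option autoImplicit false

open MeasureTheory Filter Topology Metric Set
open scoped ContDiff RealInnerProductSpace

namespace Pool.Agent.H40.Hx

open Pool.Agent.H25
open Pool.Agent.H25.HX (Tst g)
open Pool.Agent.H15.Hx (Par Sol)

theorem VV_zero {P : Par} {Ω : Set (E P.N)} (S : Sol P Ω) (c : ℝ) : VV S c 0 = 0 := by
  have h1 : (Sol.hu S 0).1.toLp _ = 0 := by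
    apply Lp.ext
    filter_upwards [(Sol.hu S 0).1.coeFn_toLp, Lp.coeFn_zero ℝ 2 (volume : Measure (E P.N))]
      with x h2 h3
    rw [h2, h3, S.u_zero]
    rfl
  have h2 : (Sol.hu S 0).2.1.toLp _ = 0 := by
    apply Lp.ext
    filter_upwards [(Sol.hu S 0).2.1.coeFn_toLp,
      Lp.coeFn_zero (E P.N) 2 (volume : Measure (E P.N))] with x h2 h3
    rw [h2, h3, S.Du_zero]
    rfl
  have h3 : (S.hz 0).1.toLp _ = 0 := by
    apply Lp.ext
    filter_upwards [(S.hz 0).1.coeFn_toLp, Lp.coeFn_zero ℝ 2 (volume : Measure (E P.N))]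
      with x h2 h3
    rw [h2, h3, S.z_zero]
    rfl
  rw [VV, h1, h2, h3]
  simp

/-- the key estimate on a strong solution -/
theorem strong_est (P : Par) {Ω : Set (E P.N)} (hΩ : IsOpen Ω) (hb : Bornology.IsBounded Ω)
    {a c : ℝ} (ha : 0 < a) (hc : 0 < c) (hac : a * c ^ (P.p - 2) = 1) {M C : ℝ}
    (hC : ∀ S : Sol P Ω, (∀ n, ∫ x, (S.f n x) ^ 2 ≤ (M / c) ^ 2) → ∀ n, S.En n ≤ C)
    (hC0 : 0 ≤ C) {f : ℝ → L2 P.N} {T : ℝ} (hT : 0 < T)
    (hf1 : AEStronglyMeasurable f (volume.restrict (Ioc 0 T)))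
    (hf2 : ∀ᵐ t ∂(volume.restrict (Ioc 0 T)), f t ∈ L2on Ω)
    (hf3 : ∀ᵐ t ∂(volume.restrict (Ioc 0 T)), ‖f t‖ ≤ M) {F U : ℝ → St P.N}
    (hU : StrongSol a (P.p - 2) Ω T F U) {ε : ℝ} (hε : 0 < ε) :
    ‖PP (U T)‖ ≤ ‖PP (U 0)‖ + c * Real.sqrt C +
      2 * (∫ t in (0 : ℝ)..T, ‖F t - ((0, 0), f t)‖) + ε := by
  obtain ⟨hU0, hF, hF2, W, hW, hUW, hA⟩ := hU
  have hα : 0 < P.p - 2 := by have := Par.two_lt P; linarith
  -- the force is integrable
  have hfi : IntegrableOn f (Ioc 0 T) := by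
    refine Integrable.mono' (g := fun _ => M) ?_ hf1 hf3
    exact integrableOn_const (by simp)
  have hfi2 : IntegrableOn (fun t => (((0, 0), f t) : St P.N)) (Ioc 0 T) := by
    refine (hfi.norm).mono' ?_ (ae_of_all _ fun t => ?_)
    · exact (aestronglyMeasurable_const (b := ((0, 0) : L2 P.N × L2v P.N))).prodMk hf1
    · rw [Prod.norm_def]
      simp
  set Ψ : ℝ → ℝ := fun t => ‖F t - ((0, 0), f t)‖ with hΨdef
  have hΨ : IntegrableOn Ψ (Ioc 0 T) := (hF.sub hfi2).norm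
  -- continuity of `U`
  have hUc : ContinuousOn U (Icc 0 T) := by
    have h1 : ContinuousOn (fun t => U 0 + ∫ s in (0 : ℝ)..t, W s) (Icc 0 T) := by
      refine continuousOn_const.add ?_
      have h2 := intervalIntegral.continuousOn_primitive_interval
        (f := W) (a := 0) (b := T) (μ := volume) (by
          rw [uIcc_of_le hT.le]
          exact (integrableOn_Icc_iff_integrableOn_Ioc).2 hW)
      rwa [uIcc_of_le hT.le] at h2
    exact h1.congr hUW
  obtain ⟨d1, hd1, hd1'⟩ := Metric.continuousWithinAt_iff.1 (hUc 0 ⟨le_rfl, hT.le⟩) (ε / 8)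
    (by positivity)
  obtain ⟨d2, hd2, hd2'⟩ := Metric.continuousWithinAt_iff.1 (hUc T ⟨hT.le, le_rfl⟩) (ε / 8)
    (by positivity)
  obtain ⟨K₀, hK₀⟩ := sample_ac hT W U (U 0) hW hUW Ψ hΨ
    (fun t => IsA a (P.p - 2) Ω (U t) (F t - W t) ∧ f t ∈ L2on Ω ∧ ‖f t‖ ≤ M)
    (hA.and (hf2.and hf3)) (ε := ε / 8) (by positivity)
  obtain ⟨K₁, hK₁⟩ := exists_nat_gt (T / (min 1 (min d1 d2)))
  set K := max K₀ K₁ with hKdef
  obtain ⟨σ, hσ, hσP, hσE⟩ := hK₀ K (le_max_left _ _)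
  have hKpos : (0 : ℝ) < K + 1 := by positivity
  set h : ℝ := T / (K + 1) with hh
  have hh0 : 0 < h := div_pos hT hKpos
  have hhT : h * (K + 1) = T := by rw [hh]; field_simp
  have hmin : 0 < min 1 (min d1 d2) := by positivity
  have hhd : h < min 1 (min d1 d2) := by
    rw [hh, div_lt_iff₀ hKpos]
    rw [div_lt_iff₀ hmin] at hK₁
    have h1 : (K₁ : ℝ) ≤ K := by exact_mod_cast le_max_right _ _
    nlinarith
  have hh1 : h ≤ 1 := hhd.le.trans (min_le_left _ _)
  have hhd1 : h < d1 := hhd.trans_le ((min_le_right _ _).trans (min_le_left _ _))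
  have hhd2 : h < d2 := hhd.trans_le ((min_le_right _ _).trans (min_le_right _ _))
  -- sampled forces
  let fh : ℕ → E P.N → ℝ := fun k x =>
    if 1 ≤ k ∧ k ≤ K then Ω.indicator (fun y => c⁻¹ * (f (σ + k * h) : E P.N → ℝ) y) x else 0
  have hfh_mem : ∀ k, MemLp (fh k) 2 volume := by
    intro k
    by_cases hk : 1 ≤ k ∧ k ≤ K
    · have : fh k = Ω.indicator (fun y => c⁻¹ * (f (σ + k * h) : E P.N → ℝ) y) := by
        funext x; simp [fh, hk]
      rw [this]
      exact ((Lp.memLp (f (σ + k * h))).const_mul c⁻¹).indicator hΩ.measurableSet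
    · have : fh k = fun _ => 0 := by
        funext x; simp only [fh]; rw [if_neg hk]
      rw [this]
      simp
  obtain ⟨S, hSδ, hSf⟩ := exists_sol P Ω hh0 hh1 fh hfh_mem (by
    intro k x hx
    by_cases hk : 1 ≤ k ∧ k ≤ K
    · simp [fh, hx]
    · simp only [fh]; rw [if_neg hk]) (by intro x; simp [fh])
  have hfh_ae : ∀ k, 1 ≤ k → k ≤ K →
      (f (σ + k * h) : E P.N → ℝ) =ᵐ[volume] fun x => c * fh k x := by
    intro k h1 h2
    filter_upwards [(hσP k h2).2.1] with x hx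
    have hk : 1 ≤ k ∧ k ≤ K := ⟨h1, h2⟩
    simp only [fh]
    rw [if_pos hk]
    by_cases hxΩ : x ∈ Ω
    · rw [indicator_of_mem hxΩ]
      field_simp
    · rw [indicator_of_notMem hxΩ, hx hxΩ, mul_zero]
  have hfh_norm : ∀ n, ∫ x, (S.f n x) ^ 2 ≤ (M / c) ^ 2 := by
    intro n
    rw [hSf]
    by_cases hk : 1 ≤ n ∧ n ≤ K
    · have e1 : ∫ x, (fh n x) ^ 2 = c⁻¹ ^ 2 * ‖f (σ + n * h)‖ ^ 2 := by
        rw [← real_inner_self_eq_norm_sq, L2.inner_def, ← integral_const_mul]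
        refine integral_congr_ae ?_
        filter_upwards [hfh_ae n hk.1 hk.2] with x hx
        rw [hx]
        simp only [RCLike.inner_apply, conj_trivial]
        field_simp
      rw [e1, ← mul_pow]
      refine pow_le_pow_left₀ (by positivity) ?_ 2
      rw [div_eq_inv_mul]
      exact mul_le_mul_of_nonneg_left (hσP n hk.2).2.2 (by positivity)
    · have e1 : ∫ x, (fh n x) ^ 2 = 0 := by
        have : fh n = fun _ => 0 := by
          funext x; simp only [fh]; rw [if_neg hk]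
        rw [this]; simp
      rw [e1]; positivity
  have hEn := hC S hfh_norm K
  -- contraction
  let Uk : ℕ → St P.N := fun k => U (σ + k * h)
  let Ak : ℕ → St P.N := fun k => F (σ + k * h) - W (σ + k * h)
  let Vk : ℕ → St P.N := fun k => VV S c k
  let Bk : ℕ → St P.N := fun k => AA S c (k - 1)
  let Rk : ℕ → St P.N := fun k => (U (σ + k * h) - U (σ + ((k - 1 : ℕ) : ℝ) * h) -
    h • W (σ + k * h)) + h • (F (σ + k * h) - ((0, 0), f (σ + k * h)))
  have hcon := contraction (Ω := Ω) (a := a) (α := P.p - 2) (h := h) ha.le hα hh0.le K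
    (U := Uk) (A := Ak) (U' := Vk) (A' := Bk) (R := Rk) (by
      intro k hk
      exact (hσP (k + 1) hk).1.toB hα hΩ hb) (by
      intro k hk
      have := VV_isB S hc hac k
      simpa [Vk, Bk] using this) (by
      intro k hk
      have h1 := VV_step S c k (F := f (σ + (k + 1 : ℕ) * h)) (by
        rw [hSf]; exact hfh_ae (k + 1) (by omega) hk)
      rw [hSδ] at h1
      simp only [Uk, Ak, Vk, Bk, Rk, Nat.add_sub_cancel]
      have h2 : VV S c (k + 1) - VV S c k = h • (((0, 0), f (σ + (k + 1 : ℕ) * h)) : St P.N) -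
          h • AA S c k := by
        rw [← h1]; abel
      have h3 : U (σ + (k + 1 : ℕ) * h) - VV S c (k + 1) - (U (σ + k * h) - VV S c k) =
          (U (σ + (k + 1 : ℕ) * h) - U (σ + k * h)) - (VV S c (k + 1) - VV S c k) := by abel
      rw [h3, h2, smul_sub, smul_sub, smul_sub]
      abel)
  have hsumR : ∑ k ∈ Finset.range K, ‖PP (Rk (k + 1))‖ ≤
      2 * ((∫ t in (0 : ℝ)..T, Ψ t) + ε / 8) := by
    refine le_trans ?_ (mul_le_mul_of_nonneg_left hσE (by norm_num))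
    have h1 : ∀ k ∈ Finset.range K, ‖PP (Rk (k + 1))‖ ≤
        2 * (‖U (σ + (k + 1 : ℕ) * h) - U (σ + k * h) - h • W (σ + (k + 1 : ℕ) * h)‖ +
          h * Ψ (σ + (k + 1 : ℕ) * h)) := by
      intro k hk
      refine (PP_norm_le _).trans (mul_le_mul_of_nonneg_left ?_ (by norm_num))
      simp only [Rk, Nat.add_sub_cancel]
      refine (norm_add_le _ _).trans ?_
      rw [norm_smul, Real.norm_of_nonneg hh0.le]
    refine (Finset.sum_le_sum h1).trans ?_
    rw [← Finset.mul_sum, Finset.sum_add_distrib, ← Finset.mul_sum]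
    refine mul_le_mul_of_nonneg_left ?_ (by norm_num)
    refine add_le_add le_rfl (mul_le_mul_of_nonneg_left ?_ hh0.le)
    rw [Finset.sum_range_succ' _ K]
    have : 0 ≤ Ψ (σ + (0 : ℕ) * h) := norm_nonneg _
    linarith
  have hVK : ‖PP (Vk K)‖ ≤ c * Real.sqrt C := by
    refine le_of_sq_le_sq ?_ (by positivity)
    rw [PP_norm_sq, mul_pow, Real.sq_sqrt hC0]
    simp only [Vk]
    rw [VV_energy]
    exact mul_le_mul_of_nonneg_left hEn (by positivity)
  have hV0 : PP (Uk 0 - Vk 0) = PP (U σ) := by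
    simp only [Uk, Vk, VV_zero, sub_zero, Nat.cast_zero, zero_mul, add_zero]
  have hσh := hσ.1
  have hσh2 := hσ.2
  have hK0 : 0 ≤ (K : ℝ) * h := by positivity
  have hKh : (K : ℝ) * h = T - h := by rw [← hhT]; ring
  have hcl0 : ‖PP (U σ)‖ ≤ ‖PP (U 0)‖ + ε / 4 := by
    have h1 : dist (U σ) (U 0) < ε / 8 := by
      refine hd1' ⟨hσ.1.le, ?_⟩ ?_
      · linarith
      · rw [Real.dist_eq, sub_zero, abs_of_pos hσ.1]; linarith
    have h2 : PP (U σ) = PP (U 0) + PP (U σ - U 0) := by rw [PP_sub]; abel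
    rw [h2]
    refine (norm_add_le _ _).trans ?_
    have h3 := PP_norm_le (U σ - U 0)
    rw [dist_eq_norm] at h1
    linarith
  have hclT : ‖PP (U T)‖ ≤ ‖PP (Uk K)‖ + ε / 4 := by
    have h1 : dist (U (σ + K * h)) (U T) < ε / 8 := by
      refine hd2' ⟨by linarith, by linarith⟩ ?_
      rw [Real.dist_eq, abs_lt]
      constructor <;> linarith
    have h2 : PP (U T) = PP (Uk K) - PP (U (σ + K * h) - U T) := by
      rw [PP_sub]; simp only [Uk]; abel
    rw [h2]
    refine (norm_sub_le _ _).trans ?_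
    have h3 := PP_norm_le (U (σ + K * h) - U T)
    rw [dist_eq_norm] at h1
    linarith
  have hUK : ‖PP (Uk K)‖ ≤ ‖PP (Uk K - Vk K)‖ + ‖PP (Vk K)‖ := by
    have h2 : PP (Uk K) = PP (Uk K - Vk K) + PP (Vk K) := by rw [PP_sub]; abel
    rw [h2]
    exact norm_add_le _ _
  rw [hV0] at hcon
  linarith

/-- MAIN TRANSFER: the discrete energy bound implies bounded energy of all weak solutions. -/
theorem transfer (hD : DiscreteBound) (N : ℕ) (hN : 3 ≤ N) (a α : ℝ) (ha : 0 < a)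
    (hα : 4 / ((N : ℝ) - 2) < α) (Ω : Set (E N)) (hΩ : IsOpen Ω) (hb : Bornology.IsBounded Ω)
    (M : ℝ) : ∃ B : ℝ, ∀ (f : ℝ → L2 N), BoundedForce Ω M f → ∀ U : ℝ → St N,
      WeakSol a α Ω f U → ∀ t ≥ 0,
        Real.sqrt (energy (U t)) ≤ Real.sqrt (energy (U 0)) + B := by
  have hN' : (3 : ℝ) ≤ N := by exact_mod_cast hN
  have hα0 : 0 < α := lt_of_le_of_lt (div_nonneg (by norm_num) (by linarith)) hα
  let P : Par := ⟨N, α + 2, hN, by
    have h1 : 2 * (N : ℝ) / ((N : ℝ) - 2) = 4 / ((N : ℝ) - 2) + 2 := by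
      have : (N : ℝ) - 2 ≠ 0 := by linarith
      field_simp
      ring
    rw [h1]; linarith⟩
  obtain ⟨R, hR⟩ := hb.subset_ball (0 : E N)
  set c : ℝ := a ^ (-(1 / α)) with hc
  have hc0 : 0 < c := Real.rpow_pos_of_pos ha _
  have hac : a * c ^ (P.p - 2) = 1 := by
    have h1 : P.p - 2 = α := by simp [P]
    rw [h1, hc, ← Real.rpow_mul ha.le]
    have h2 : -(1 / α) * α = -1 := by field_simp
    rw [h2, Real.rpow_neg_one]
    field_simp
  obtain ⟨C, hC⟩ := hD P Ω R (max M 0 / c) hΩ hR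
  refine ⟨c * Real.sqrt (max C 0), ?_⟩
  intro f hf U hU t ht
  have hs : ∀ V : St N, Real.sqrt (energy V) = ‖PP V‖ := by
    intro V
    rw [← PP_norm_sq, Real.sqrt_sq (norm_nonneg _)]
  rw [hs, hs]
  rcases ht.lt_or_eq with ht0 | ht0
  swap
  · rw [← ht0]
    have : 0 ≤ c * Real.sqrt (max C 0) := by positivity
    linarith
  refine le_of_forall_pos_le_add fun ε hε => ?_
  obtain ⟨F', U', h1, h2, h3⟩ := hU t ht0
  have hsub : Ioc 0 t ⊆ Ioi (0 : ℝ) := fun s hs => hs.1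
  have hle : volume.restrict (Ioc 0 t) ≤ volume.restrict (Ioi (0 : ℝ)) :=
    Measure.restrict_mono hsub le_rfl
  -- choose n
  have h2' : ∀ᶠ n in atTop, ∫ s in (0 : ℝ)..t, ‖F' n s - ((0, 0), f s)‖ < ε / 16 := by
    have := (tendsto_order.1 h2).2 (ε / 16) (by positivity)
    exact this
  have h3' := (Metric.tendstoUniformlyOn_iff.1 h3) (ε / 16) (by positivity)
  obtain ⟨n, hn1, hn2⟩ := (h2'.and h3').exists
  have hα2 : P.p - 2 = α := by simp [P]
  have key := strong_est P hΩ hb ha hc0 hac (M := max M 0) (C := max C 0)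
    (fun S hS m => (hC S hS m).trans (le_max_left _ _)) (le_max_right _ _)
    (f := f) ht0 (hf.1.mono_measure hle)
    (ae_mono hle hf.2.1)
    (Filter.Eventually.mono (ae_mono hle hf.2.2) fun s hs => hs.trans (le_max_left _ _)) (by
      rw [hα2]; exact h1 n) (ε := ε / 4) (by positivity)
  have e1 : ‖PP (U t)‖ ≤ ‖PP (U' n t)‖ + ε / 8 := by
    have h4 := hn2 t ⟨ht0.le, le_rfl⟩
    have h5 : PP (U t) = PP (U' n t) + PP (U t - U' n t) := by rw [PP_sub]; abel
    rw [h5]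
    refine (norm_add_le _ _).trans ?_
    have h6 := PP_norm_le (U t - U' n t)
    rw [dist_eq_norm] at h4
    linarith
  have e2 : ‖PP (U' n 0)‖ ≤ ‖PP (U 0)‖ + ε / 8 := by
    have h4 := hn2 0 ⟨le_rfl, ht0.le⟩
    have h5 : PP (U' n 0) = PP (U 0) - PP (U 0 - U' n 0) := by rw [PP_sub]; abel
    rw [h5]
    refine (norm_sub_le _ _).trans ?_
    have h6 := PP_norm_le (U 0 - U' n 0)
    rw [dist_eq_norm] at h4
    linarith
  linarith

end Pool.Agent.H40.Hx
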